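import Pool.Agent.MP_e0ec03_al.lim.Op

namespace Pool.Agent.MP_e0ec03_al.Lim

open scoped ENNReal

variable {p : ℕ} {z : ℝ≥0∞}

/-- the extra cost of a slope when all slopes up to `l` are switched -/
def kap (l s : ℤ) : ℕ := if s ≤ l then s.toNat else (-s).toNat

/-- the shift of a slope when all slopes up to `l` are switched -/
def pos (l s : ℤ) : ℤ := if s ≤ l then (if s < 0 then 0 else 1) else (if s < 0 then -1 else 0)

/-- the total extra cost -/
def cN (l : ℤ) (u : ℤ →₀ ℕ) : ℕ := u.sum fun s n => n * kap l s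

/-- the total shift -/
def sA (l : ℤ) (u : ℤ →₀ ℕ) : ℤ := u.sum fun s n => n * pos l s

theorem cN_add (l : ℤ) (u v : ℤ →₀ ℕ) : cN l (u + v) = cN l u + cN l v :=
  Finsupp.sum_add_index' (by simp) (by intro s a b; ring)

theorem sA_add (l : ℤ) (u v : ℤ →₀ ℕ) : sA l (u + v) = sA l u + sA l v :=
  Finsupp.sum_add_index' (by simp) (by intro s a b; push_cast; ring)

theorem cN_single (l s : ℤ) (n : ℕ) : cN l (Finsupp.single s n) = n * kap l s := by simp [cN]

theorem sA_single (l s : ℤ) (n : ℕ) : sA l (Finsupp.single s n) = n * pos l s := by simp [sA]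

theorem cst_single' (s : ℤ) (n : ℕ) : cst (Finsupp.single s n) = n * s.natAbs := by simp [cst]

theorem sg_single' (s : ℤ) (n : ℕ) :
    sg (Finsupp.single s n) = n * if s < 0 then -1 else 1 := by
  rw [sg, Finsupp.sum_single_index (by simp)]
  split_ifs <;> simp

theorem dual_aux (l : ℤ) (v : ℤ →₀ ℕ) :
    (cN l v : ℤ) - l * sA l v ≤ 0 ∧ (cN l v : ℤ) - l * sA l v ≤ cst v - l * sg v := by
  induction v using Finsupp.induction_linear with
  | zero => simp [cN, sA, cst_zero, sg_zero]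
  | add f g hf hg =>
    rw [cN_add, sA_add, cst_add, sg_add]
    push_cast
    constructor <;> linarith [hf.1, hf.2, hg.1, hg.2]
  | single s n =>
    rw [cN_single, sA_single, cst_single', sg_single']
    have h0 : (0 : ℤ) ≤ n := Int.natCast_nonneg n
    have h1 : (kap l s : ℤ) - l * pos l s ≤ 0 := by
      simp only [kap, pos]
      split_ifs <;> omega
    have h2 : (kap l s : ℤ) - l * pos l s ≤ (s.natAbs : ℤ) - l * if s < 0 then -1 else 1 := by
      simp only [kap, pos]
      split_ifs <;> omega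
    have h3 := mul_le_mul_of_nonneg_left h1 h0
    have h4 := mul_le_mul_of_nonneg_left h2 h0
    rw [Nat.cast_mul, Nat.cast_mul]
    constructor <;> linarith

theorem dual {l : ℤ} (hl : |l| ≤ p) (u : ℤ →₀ ℕ) (j : ℤ) :
    (cN l u : ℤ) + l * (j - sA l u) ≤ prof p u j := by
  obtain ⟨e, h1, h2⟩ := prof_ex (p := p) u j
  obtain ⟨e', rfl⟩ := exists_add_of_le h1
  have h3 := (dual_aux l e).2
  have h4 := (dual_aux l e').1
  have h5 : l * (j - sg e) ≤ p * ((j - sg e).natAbs : ℤ) := by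
    rw [Int.natCast_natAbs]
    exact (le_abs_self _).trans (by rw [abs_mul]; gcongr)
  rw [h2, cN_add, sA_add, Nat.cast_add, Nat.cast_add, Nat.cast_mul]
  linarith

theorem step_l (l : ℤ) (u : ℤ →₀ ℕ) :
    (cN l u : ℤ) = cN (l - 1) u + l * u l ∧ sA l u = sA (l - 1) u + u l := by
  induction u using Finsupp.induction_linear with
  | zero => simp [cN, sA]
  | add f g hf hg =>
    simp only [cN_add, sA_add, Finsupp.add_apply]
    push_cast
    constructor <;> linarith [hf.1, hf.2, hg.1, hg.2]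
  | single s n =>
    simp only [cN_single, sA_single, Nat.cast_mul]
    by_cases h : l = s
    · subst h
      have h1 : (kap l l : ℤ) = kap (l - 1) l + l := by
        simp only [kap]
        split_ifs <;> omega
      have h2 : pos l l = pos (l - 1) l + 1 := by
        simp only [pos]
        split_ifs <;> omega
      rw [h1, h2, Finsupp.single_eq_same]
      constructor <;> ring
    · have h1 : kap l s = kap (l - 1) s := by
        simp only [kap]
        split_ifs <;> omega
      have h2 : pos l s = pos (l - 1) s := by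
        simp only [pos]
        split_ifs <;> omega
      simp [h1, h2, Finsupp.single_eq_of_ne h]

theorem ex_e (l : ℤ) (u : ℤ →₀ ℕ) : ∀ t ≤ u l, ∃ e ≤ u,
    (cst e : ℤ) = cN (l - 1) u + l * t ∧ sg e = sA (l - 1) u + t := by
  induction u using Finsupp.induction_linear with
  | zero =>
    intro t ht
    have : t = 0 := by simpa using ht
    subst this
    exact ⟨0, le_rfl, by simp [cN, sA, cst_zero, sg_zero]⟩
  | add f g hf hg =>
    intro t ht
    rw [Finsupp.add_apply] at ht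
    obtain ⟨e, h1, h2, h3⟩ := hf (min t (f l)) (min_le_right _ _)
    obtain ⟨e', h4, h5, h6⟩ := hg (t - min t (f l)) (by omega)
    have h7 : ((t - min t (f l) : ℕ) : ℤ) = t - (min t (f l) : ℕ) := by omega
    rw [h7] at h5 h6
    refine ⟨e + e', add_le_add h1 h4, ?_, ?_⟩
    · rw [cst_add, cN_add, Nat.cast_add, Nat.cast_add, h2, h5]
      ring
    · rw [sg_add, sA_add, h3, h6]
      ring
  | single s n =>
    intro t ht
    rw [cN_single, sA_single, Nat.cast_mul]
    by_cases h : l = s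
    · subst h
      rw [Finsupp.single_eq_same] at ht
      by_cases h0 : l < 0
      · have h1 : (kap (l - 1) l : ℤ) = -l := by
          simp only [kap]
          split_ifs <;> omega
        have h2 : pos (l - 1) l = -1 := by
          simp only [pos]
          split_ifs <;> omega
        refine ⟨Finsupp.single l (n - t), Finsupp.single_mono (by omega), ?_, ?_⟩
        · rw [cst_single', h1, Nat.cast_mul, Nat.cast_sub ht, show (l.natAbs : ℤ) = -l by omega]
          ring
        · rw [sg_single', h2, if_pos h0, Nat.cast_sub ht]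
          ring
      · have h1 : (kap (l - 1) l : ℤ) = 0 := by
          simp only [kap]
          split_ifs <;> omega
        have h2 : pos (l - 1) l = 0 := by
          simp only [pos]
          split_ifs <;> omega
        refine ⟨Finsupp.single l t, Finsupp.single_mono ht, ?_, ?_⟩
        · rw [cst_single', h1, Nat.cast_mul, show (l.natAbs : ℤ) = l by omega]
          ring
        · rw [sg_single', h2, if_neg h0]
          ring
    · rw [Finsupp.single_eq_of_ne h] at ht
      have : t = 0 := by omega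
      subst this
      by_cases h0 : pos (l - 1) s = 0
      · have h1 : (kap (l - 1) s : ℤ) = 0 := by
          simp only [kap, pos] at h0 ⊢
          split_ifs at h0 ⊢ <;> omega
        exact ⟨0, zero_le, by simp [cst_zero, h1], by simp [sg_zero, h0]⟩
      · have h1 : (kap (l - 1) s : ℤ) = s.natAbs := by
          simp only [kap, pos] at h0 ⊢
          split_ifs at h0 ⊢ <;> omega
        have h2 : pos (l - 1) s = if s < 0 then -1 else 1 := by
          simp only [pos] at h0 ⊢
          split_ifs at h0 ⊢ <;> omega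
        exact ⟨_, le_rfl, by rw [cst_single', h1]; simp, by rw [sg_single', h2]; simp⟩

theorem prof_mid {l : ℤ} (hl : |l| ≤ p) (u : ℤ →₀ ℕ) {t : ℕ} (ht : t ≤ u l) :
    (prof p u (sA (l - 1) u + t) : ℤ) = cN (l - 1) u + l * t := by
  obtain ⟨e, h1, h2, h3⟩ := ex_e l u t ht
  have h4 := prof_le (p := p) h1 (sA (l - 1) u + t)
  rw [h3, sub_self, Int.natAbs_zero, mul_zero, add_zero] at h4
  have h5 := dual hl u (sA (l - 1) u + t)
  rw [(step_l l u).1, (step_l l u).2] at h5
  have h6 : (prof p u (sA (l - 1) u + t) : ℤ) ≤ cst e := by exact_mod_cast h4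
  linarith

theorem prof_tail {l : ℤ} (hl : |l| = p) (u : ℤ →₀ ℕ) {j : ℤ} (hj : 0 ≤ l * j) :
    prof p u (sA l u + j) = cN l u + p * j.natAbs := by
  obtain ⟨e, h1, h2, h3⟩ := ex_e (l + 1) u 0 (Nat.zero_le _)
  simp only [add_sub_cancel_right, Nat.cast_zero, mul_zero, add_zero, Nat.cast_inj] at h2 h3
  have h4 := prof_le (p := p) h1 (sA l u + j)
  rw [h2, h3, add_sub_cancel_left] at h4
  have h5 := dual hl.le u (sA l u + j)
  rw [add_sub_cancel_left, ← abs_of_nonneg hj, abs_mul, hl, ← Int.natCast_natAbs] at h5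
  exact le_antisymm h4 (by exact_mod_cast h5)

/-- only slopes of digits occur -/
def Dg (p : ℕ) (u : ℤ →₀ ℕ) : Prop := ∀ s, u s ≠ 0 → ∃ r ∈ Finset.Ioo 0 p, s = 2 * (r : ℤ) - p

theorem Dg.add {u : ℤ →₀ ℕ} (h : Dg p u) {r : ℕ} (hr : r ∈ Finset.Ioo 0 p) :
    Dg p (u + dig p r) := fun s hs => by
  by_cases h1 : s = 2 * (r : ℤ) - p
  · exact ⟨r, hr, h1⟩
  · rw [dig, if_neg (Finset.mem_Ioo.1 hr).1.ne', Finsupp.add_apply, Finsupp.single_eq_of_ne h1,
      add_zero] at hs
    exact h s hs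

theorem Dg.step {u : ℤ →₀ ℕ} (h : Dg p u) {l : ℤ}
    (hl : ∀ r : ℕ, 0 < r → r < p → l ≠ 2 * (r : ℤ) - p) :
    cN l u = cN (l - 1) u ∧ sA l u = sA (l - 1) u := by
  have h1 : u l = 0 := by
    by_contra h1
    obtain ⟨r, h2, h3⟩ := h l h1
    exact hl r (Finset.mem_Ioo.1 h2).1 (Finset.mem_Ioo.1 h2).2 h3
  have h2 := step_l l u
  rw [h1] at h2
  constructor
  · have := h2.1
    omega
  · simpa using h2.2

/-- the weight of the window -/
noncomputable def Ph (z : ℝ≥0∞) (l : ℤ) (u : ℤ →₀ ℕ) : ℝ≥0∞ := z ^ cN l u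

/-- the weight of the piece of slope `l` -/
noncomputable def QQ (p : ℕ) (z : ℝ≥0∞) (l : ℤ) (u : ℤ →₀ ℕ) : ℝ≥0∞ :=
  ∑ t ∈ Finset.range (u l), z ^ prof p u (sA (l - 1) u + (t + 1 : ℕ))

theorem W_eq (hp : 0 < p) {u : ℤ →₀ ℕ} (h : Dg p u) :
    W p z u = (1 - z ^ p)⁻¹ * Ph z (-p) u + (∑ a ∈ Finset.Ico 1 p, QQ p z (2 * (a : ℤ) - p) u +
      z ^ p * (1 - z ^ p)⁻¹ * Ph z p u) := by
  set T : ℤ → ℝ≥0∞ := fun l => ∑' t : ℕ, z ^ prof p u (sA l u + (t + 1 : ℕ)) with hT
  have h1 : W p z u = (1 - z ^ p)⁻¹ * Ph z (-p) u + T (-p) := by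
    rw [W, ← (Equiv.addLeft (sA (-p) u + 1)).tsum_eq,
      tsum_of_nat_of_neg_add_one ENNReal.summable ENNReal.summable, add_comm]
    congr 1
    · rw [← ENNReal.tsum_geometric, ← ENNReal.tsum_mul_right]
      refine tsum_congr fun t => ?_
      have := prof_tail (p := p) (l := -p) (by simp) u (j := -t) (by rw [neg_mul_neg]; positivity)
      rw [Equiv.coe_addLeft, Ph, ← pow_mul, ← pow_add, add_comm (p * t)]
      simp only [Int.natAbs_neg, Int.natAbs_natCast] at this
      rw [← this]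
      congr 2
      ring
    · refine tsum_congr fun t => ?_
      rw [Equiv.coe_addLeft]
      congr 2
      push_cast
      ring
  have h2 : T p = z ^ p * (1 - z ^ p)⁻¹ * Ph z p u := by
    rw [← ENNReal.tsum_geometric_add_one, ← ENNReal.tsum_mul_right]
    refine tsum_congr fun t => ?_
    rw [prof_tail (p := p) (l := p) (by simp) u (by positivity), Int.natAbs_natCast, Ph,
      ← pow_mul, ← pow_add, add_comm]
  have h3 : ∀ l, T (l - 1) = QQ p z l u + T l := fun l => by
    simp only [hT, QQ]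
    rw [← Summable.sum_add_tsum_nat_add' (k := u l) ENNReal.summable]
    congr 1
    refine tsum_congr fun t => ?_
    rw [(step_l l u).2]
    congr 2
    push_cast
    ring
  have h4 : ∀ l, (∀ r : ℕ, 0 < r → r < p → l ≠ 2 * (r : ℤ) - p) → T l = T (l - 1) := fun l hl => by
    simp only [hT, (h.step hl).2]
  have h5 : ∀ n : ℕ, n < p → T (-p) = ∑ a ∈ Finset.Ico 1 (n + 1), QQ p z (2 * (a : ℤ) - p) u +
      T (2 * (n : ℤ) - p) := by
    intro n
    induction n with
    | zero => simp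
    | succ n ih =>
      intro hn
      rw [Finset.sum_Ico_succ_top (by omega), add_assoc, ← h3, h4 (_ - 1) (by omega),
        ih (by omega)]
      congr 2
      push_cast
      ring
  have h6 := h5 (p - 1) (by omega)
  rw [Nat.sub_add_cancel hp, show 2 * ((p - 1 : ℕ) : ℤ) - p = p - 1 - 1 by omega,
    ← h4 _ (by omega), ← h4 _ (by omega)] at h6
  rw [h1, h6, h2]

theorem Fk_congr {φ ψ : (ℤ →₀ ℕ) → ℝ≥0∞} (h : ∀ u, Dg p u → φ u = ψ u) :
    ∀ k u, Dg p u → Fk p z φ k u = Fk p z ψ k u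
  | 0 => h
  | k + 1 => fun u hu => by
    rw [Fk, Fk, Fop, Fop]
    exact Finset.sum_congr rfl fun r hr => by rw [Fk_congr h k _ (hu.add hr)]

theorem Fk_sum {ι : Type} (s : Finset ι) (φ : ι → (ℤ →₀ ℕ) → ℝ≥0∞) :
    ∀ k u, Fk p z (fun u => ∑ i ∈ s, φ i u) k u = ∑ i ∈ s, Fk p z (φ i) k u
  | 0, _ => rfl
  | k + 1, u => by
    simp only [Fk, Fop, Fk_sum s φ k, Finset.mul_sum]
    exact Finset.sum_comm

/-- the series of the nonzero digits in the window with top `a` -/
noncomputable def fA (p : ℕ) (z : ℝ≥0∞) (a : ℕ) : ℝ≥0∞ :=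
  ∑ r ∈ Finset.Ioo 0 p, z ^ (if r ≤ a then r else p - r)

theorem fA_eq {l : ℤ} {a : ℕ} (h : ∀ r : ℕ, 0 < r → r < p → (2 * (r : ℤ) - p ≤ l ↔ r ≤ a)) :
    ∑ r ∈ Finset.Ioo 0 p, z ^ min r (p - r) * z ^ kap l (2 * (r : ℤ) - p) = fA p z a :=
  Finset.sum_congr rfl fun r hr => by
    rw [Finset.mem_Ioo] at hr
    have := h r hr.1 hr.2
    rw [← pow_add, kap]
    congr 1
    split_ifs <;> omega

theorem Ph_add (l : ℤ) (u : ℤ →₀ ℕ) {r : ℕ} (hr : r ∈ Finset.Ioo 0 p) :
    Ph z l (u + dig p r) = z ^ kap l (2 * (r : ℤ) - p) * Ph z l u := by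
  rw [Ph, Ph, dig, if_neg (Finset.mem_Ioo.1 hr).1.ne', cN_add, cN_single, one_mul, pow_add,
    mul_comm]

theorem Fk_Ph {l : ℤ} {a : ℕ} (h : ∀ r : ℕ, 0 < r → r < p → (2 * (r : ℤ) - p ≤ l ↔ r ≤ a)) :
    ∀ k u, Fk p z (Ph z l) k u = fA p z a ^ k * Ph z l u
  | 0, u => by simp [Fk]
  | k + 1, u => by
    rw [Fk, Fop, pow_succ, ← fA_eq h, Finset.mul_sum, Finset.sum_mul, fA_eq h]
    refine Finset.sum_congr rfl fun r hr => ?_
    rw [Fk_Ph h k, Ph_add l u hr]
    ring

theorem QQ_add {l : ℤ} (hl : |l| ≤ p) (u : ℤ →₀ ℕ) (s : ℤ) :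
    QQ p z l (u + Finsupp.single s 1) = z ^ kap l s * QQ p z l u +
      if s = l then z ^ kap l s * Ph z (l - 1) u else 0 := by
  by_cases h : s = l
  · subst h
    have h1 : (kap s s : ℤ) = kap (s - 1) s + s := by
      simp only [kap]
      split_ifs <;> omega
    have h2 : (u + Finsupp.single s 1 : ℤ →₀ ℕ) s = u s + 1 := by simp
    rw [if_pos rfl, QQ, QQ, h2, Finset.sum_range_succ', Finset.mul_sum]
    congr 1
    · refine Finset.sum_congr rfl fun t ht => ?_
      rw [Finset.mem_range] at ht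
      have h3 := prof_mid hl (u + Finsupp.single s 1) (t := t + 1 + 1) (by omega)
      have h4 := prof_mid hl u (t := t + 1) (by omega)
      rw [cN_add, cN_single, one_mul] at h3
      rw [← pow_add]
      congr 1
      push_cast at h3 h4 ⊢
      zify
      rw [h3, h4, h1]
      ring
    · have h3 := prof_mid hl (u + Finsupp.single s 1) (t := 0 + 1) (by omega)
      rw [cN_add, cN_single, one_mul] at h3
      rw [Ph, ← pow_add]
      congr 1
      push_cast at h3 ⊢
      zify
      rw [h3, h1]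
      ring
  · have h1 : kap l s = kap (l - 1) s := by
      simp only [kap]
      split_ifs <;> omega
    have h2 : (u + Finsupp.single s 1 : ℤ →₀ ℕ) l = u l := by
      simp [Finsupp.single_eq_of_ne (Ne.symm h)]
    rw [if_neg h, add_zero, QQ, QQ, h2, Finset.mul_sum]
    refine Finset.sum_congr rfl fun t ht => ?_
    rw [Finset.mem_range] at ht
    have h3 := prof_mid hl (u + Finsupp.single s 1) (t := t + 1) (by omega)
    have h4 := prof_mid hl u (t := t + 1) (by omega)
    rw [cN_add, cN_single, one_mul] at h3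
    rw [← pow_add]
    congr 1
    push_cast at h3 h4 ⊢
    zify
    rw [h3, h4, h1]
    ring

/-- the coefficients of a marked sequence -/
noncomputable def XX (f g c : ℝ≥0∞) : ℕ → ℝ≥0∞
  | 0 => 0
  | k + 1 => f ^ k * c + g * XX f g c k

theorem Fk_QQ {a : ℕ} (ha : a ∈ Finset.Ico 1 p) :
    ∀ k u, Fk p z (QQ p z (2 * (a : ℤ) - p)) k u = fA p z a ^ k * QQ p z (2 * (a : ℤ) - p) u +
      XX (fA p z a) (fA p z (a - 1)) (z ^ a) k * Ph z (2 * (a : ℤ) - p - 1) u
  | 0, u => by simp [Fk, XX]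
  | k + 1, u => by
    have ha' := Finset.mem_Ico.1 ha
    have e1 := fA_eq (p := p) (z := z) (l := 2 * (a : ℤ) - p) (a := a) (by omega)
    have e2 := fA_eq (p := p) (z := z) (l := 2 * (a : ℤ) - p - 1) (a := a - 1) (by omega)
    have e3 : ∑ r ∈ Finset.Ioo 0 p, z ^ min r (p - r) * (if 2 * (r : ℤ) - p = 2 * (a : ℤ) - p then
        z ^ kap (2 * (a : ℤ) - p) (2 * (r : ℤ) - p) * Ph z (2 * (a : ℤ) - p - 1) u else 0) =
          z ^ a * Ph z (2 * (a : ℤ) - p - 1) u := by
      rw [Finset.sum_eq_single a]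
      · rw [if_pos rfl, ← mul_assoc, ← pow_add, kap, if_pos le_rfl]
        congr 2
        omega
      · intro r _ hr
        rw [if_neg (by omega), mul_zero]
      · intro h0
        exact (h0 (Finset.mem_Ioo.2 ⟨by omega, by omega⟩)).elim
    calc _ = ∑ r ∈ Finset.Ioo 0 p, (fA p z a ^ k * QQ p z (2 * (a : ℤ) - p) u *
            (z ^ min r (p - r) * z ^ kap (2 * (a : ℤ) - p) (2 * (r : ℤ) - p)) +
          fA p z a ^ k * (z ^ min r (p - r) * (if 2 * (r : ℤ) - p = 2 * (a : ℤ) - p then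
            z ^ kap (2 * (a : ℤ) - p) (2 * (r : ℤ) - p) * Ph z (2 * (a : ℤ) - p - 1) u else 0)) +
          XX (fA p z a) (fA p z (a - 1)) (z ^ a) k * Ph z (2 * (a : ℤ) - p - 1) u *
            (z ^ min r (p - r) * z ^ kap (2 * (a : ℤ) - p - 1) (2 * (r : ℤ) - p))) := by
          rw [Fk, Fop]
          refine Finset.sum_congr rfl fun r hr => ?_
          rw [Fk_QQ ha k, Ph_add _ u hr, dig, if_neg (Finset.mem_Ioo.1 hr).1.ne',
            QQ_add (by rw [abs_le]; omega)]
          ring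
      _ = _ := by
          simp only [Finset.sum_add_distrib, ← Finset.mul_sum, e1, e2, e3, XX]
          ring

/-- the closed form of the coefficients -/
theorem w_eq (hp : 0 < p) (k : ℕ) :
    Fk p z (W p z) k 0 = (1 - z ^ p)⁻¹ * fA p z 0 ^ k +
      (∑ a ∈ Finset.Ico 1 p, XX (fA p z a) (fA p z (a - 1)) (z ^ a) k +
        z ^ p * (1 - z ^ p)⁻¹ * fA p z (p - 1) ^ k) := by
  rw [Fk_congr (fun u hu => W_eq hp hu) k 0 (fun s hs => (hs rfl).elim), Fk_add, Fk_add, Fk_mul,
    Fk_mul, Fk_sum, Fk_Ph (a := 0) (by omega), Fk_Ph (a := p - 1) (by omega),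
    Finset.sum_congr rfl fun a ha => Fk_QQ ha k 0]
  simp [Ph, QQ, cN]

theorem XX_sum (f g c b : ℝ≥0∞) : ∑' k, b ^ k * XX f g c k =
    b * c * (1 - b * f)⁻¹ + b * g * ∑' k, b ^ k * XX f g c k := by
  rw [← ENNReal.tsum_geometric, ← ENNReal.tsum_mul_left, ← ENNReal.tsum_mul_left,
    ← ENNReal.tsum_add, tsum_eq_zero_add' ENNReal.summable, XX, mul_zero, zero_add]
  refine tsum_congr fun k => ?_
  rw [XX]
  ring

theorem H_eq (hp : 0 < p) (b : ℝ≥0∞) :
    RR p z (W p z) b 0 = (1 - z ^ p)⁻¹ * (1 - b * fA p z 0)⁻¹ +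
      (∑ a ∈ Finset.Ico 1 p, ∑' k, b ^ k * XX (fA p z a) (fA p z (a - 1)) (z ^ a) k +
        z ^ p * (1 - z ^ p)⁻¹ * (1 - b * fA p z (p - 1))⁻¹) := by
  rw [← ENNReal.tsum_geometric (b * _), ← ENNReal.tsum_geometric (b * _), ← ENNReal.tsum_mul_left,
    ← ENNReal.tsum_mul_left, ← Summable.tsum_finsetSum (fun _ _ => ENNReal.summable),
    ← ENNReal.tsum_add, ← ENNReal.tsum_add, RR]
  refine tsum_congr fun k => ?_
  rw [zero_add, w_eq hp, ← Finset.mul_sum]
  ring

end Pool.Agent.MP_e0ec03_al.Lim
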