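import Pool.Agent.MP_e0ec03_al.lim.Op

namespace Pool.Agent.MP_e0ec03_al.Lim

open scoped ENNReal
open Classical Core

section general

variable {p q : ℕ}

/-- the sum over the valid cores, pure if `β` -/
noncomputable def SA (β : Prop) (g : Core p q → ℝ≥0∞) : ℝ≥0∞ :=
  ∑' c, if valid c ∧ (β → Core.pure c) then g c else 0

theorem SA_mono (β : Prop) {g g' : Core p q → ℝ≥0∞} (h : ∀ c, g c ≤ g' c) : SA β g ≤ SA β g' :=
  ENNReal.tsum_le_tsum fun c => by
    split_ifs
    · exact h c
    · exact le_rfl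

theorem SA_mul (β : Prop) (a : ℝ≥0∞) (g : Core p q → ℝ≥0∞) :
    SA β (fun c => a * g c) = a * SA β g := by
  rw [SA, SA, ← ENNReal.tsum_mul_left]
  exact tsum_congr fun c => by split_ifs <;> simp

theorem SA_le (β : Prop) (g : Core p q → ℝ≥0∞) : SA β g ≤ SA False g :=
  ENNReal.tsum_le_tsum fun c => by
    by_cases h : valid c ∧ (β → Core.pure c)
    · rw [if_pos h, if_pos ⟨h.1, False.elim⟩]
    · rw [if_neg h]
      exact zero_le

/-- a weight given by cases -/
noncomputable def mk (g0 : ℝ≥0∞) (g1 : Core p q → ZMod q → ℝ≥0∞) (G : Core p q → ℕ → ℝ≥0∞)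
    (h : Core p q → ZMod q → ℝ≥0∞) : Core p q → ℝ≥0∞
  | .empty => g0
  | .up y d => g1 y d
  | .node x r y d => G x r.val * h y d

variable [NeZero p] [NeZero q]

/-- the sum over the excursions -/
noncomputable def SE (h : Core p q → ZMod q → ℝ≥0∞) : ℝ≥0∞ :=
  ∑' y, ∑ d, if valid y ∧ Core.pure y ∧ ¬ (y = .empty ∧ d = 0) then h y d else 0

omit [NeZero p] in
theorem SE_add (h : Core p q → ZMod q → ℝ≥0∞) :
    h .empty 0 + SE h = SA True fun y => ∑ d, h y d := by
  have h1 : h .empty 0 = ∑' y : Core p q, ∑ d : ZMod q,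
      if y = .empty then if d = 0 then h .empty 0 else 0 else 0 := by
    rw [tsum_eq_single .empty]
    · simp
    · intro y hy
      simp [hy]
  rw [h1, SE, ← ENNReal.tsum_add, SA]
  refine tsum_congr fun y => ?_
  rw [← Finset.sum_add_distrib]
  by_cases h2 : y = .empty
  · subst h2
    rw [if_pos ⟨trivial, fun _ => trivial⟩]
    refine Finset.sum_congr rfl fun d _ => ?_
    by_cases h3 : d = 0
    · simp [h3]
    · simp [h3, valid, Core.pure]
  · by_cases h3 : valid y ∧ Core.pure y
    · simp [h2, h3]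
    · rw [if_neg (by tauto)]
      refine Finset.sum_eq_zero fun d _ => ?_
      rw [if_neg h2, if_neg (by tauto), add_zero]

omit [NeZero q] in
theorem sum_zmod (f : ℕ → ℝ≥0∞) :
    ∑ r : ZMod p, (if r = 0 then 0 else f r.val) = ∑ r ∈ Finset.Ioo 0 p, f r := by
  have h1 : ∑ r : ZMod p, (if r = 0 then 0 else f r.val) =
      ∑ r ∈ Finset.range p, if r = 0 then 0 else f r := by
    rw [← Fin.sum_univ_eq_sum_range (fun r => if r = 0 then 0 else f r)]
    simp only [← ZMod.val_eq_zero (n := p)]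
    obtain ⟨p, rfl⟩ := Nat.exists_eq_succ_of_ne_zero (NeZero.ne p)
    rfl
  rw [h1, Finset.range_eq_Ico, ← Finset.Ioo_insert_left (NeZero.pos p),
    Finset.sum_insert (by simp), if_pos rfl, zero_add]
  exact Finset.sum_congr rfl fun r hr => if_neg (Finset.mem_Ioo.1 hr).1.ne'

omit [NeZero q] in
theorem spine (β : Prop) (G : Core p q → ℕ → ℝ≥0∞) :
    ∑' x : Core p q, ∑ r : ZMod p, (if (valid x ∧ (β → Core.pure x)) ∧ (x = .empty ∨ r ≠ 0) then
      G x r.val else 0) = G .empty 0 + SA β fun x => ∑ r ∈ Finset.Ioo 0 p, G x r := by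
  have h1 : G .empty 0 = ∑' x : Core p q, ∑ r : ZMod p,
      if x = .empty then if r = 0 then G .empty 0 else 0 else 0 := by
    rw [tsum_eq_single .empty]
    · simp
    · intro y hy
      simp [hy]
  rw [h1, SA, ← ENNReal.tsum_add]
  refine tsum_congr fun x => ?_
  rw [← sum_zmod]
  by_cases h2 : valid x ∧ (β → Core.pure x)
  · rw [if_pos h2, ← Finset.sum_add_distrib]
    refine Finset.sum_congr rfl fun r _ => ?_
    by_cases h3 : x = .empty
    · subst h3
      by_cases h4 : r = 0
      · simp [h4, valid, Core.pure]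
      · simp [h4, valid, Core.pure]
    · by_cases h4 : r = 0
      · simp [h3, h4]
      · rw [if_pos ⟨h2, Or.inr h4⟩, if_neg h3, if_neg h4, zero_add]
  · have h3 : x ≠ .empty := by
      rintro rfl
      exact h2 ⟨trivial, fun _ => trivial⟩
    simp [h2, h3]

theorem SA_mk (β : Prop) (g0 : ℝ≥0∞) (g1 : Core p q → ZMod q → ℝ≥0∞) (G : Core p q → ℕ → ℝ≥0∞)
    (h : Core p q → ZMod q → ℝ≥0∞) :
    SA β (mk g0 g1 G h) = g0 + ((if β then 0 else SA False fun y => ∑ d, g1 y d) +
      (G .empty 0 + SA β fun x => ∑ r ∈ Finset.Ioo 0 p, G x r) * SE h) := by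
  rw [SA, ← (dec0 p q).tsum_eq, Summable.tsum_sum ENNReal.summable ENNReal.summable,
    Summable.tsum_sum ENNReal.summable ENNReal.summable]
  congr 1
  · simp [dec0, valid, Core.pure, mk]
  congr 1
  · rw [ENNReal.tsum_prod']
    by_cases hβ : β
    · simp [dec0, Core.pure, hβ]
    · rw [if_neg hβ, SA]
      refine tsum_congr fun y => ?_
      rw [tsum_fintype]
      by_cases hy : valid y <;> simp [dec0, valid, mk, hβ, hy]
  · rw [← spine, SE, ← ENNReal.tsum_mul_right, ENNReal.tsum_prod']
    refine tsum_congr fun x => ?_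
    rw [← ENNReal.tsum_mul_left, ENNReal.tsum_prod']
    refine tsum_congr fun y => ?_
    rw [tsum_fintype, Fintype.sum_prod_type, Finset.sum_mul_sum]
    refine Finset.sum_congr rfl fun r _ => Finset.sum_congr rfl fun d _ => ?_
    simp only [dec0, Equiv.coe_fn_mk, valid, Core.pure, mk]
    by_cases h1 : (valid x ∧ (β → Core.pure x)) ∧ (x = .empty ∨ r ≠ 0)
    · by_cases h2 : valid y ∧ Core.pure y ∧ ¬ (y = .empty ∧ d = 0)
      · rw [if_pos h1, if_pos h2, if_pos (by tauto)]
      · rw [if_neg h2, if_neg (by tauto), mul_zero]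
    · rw [if_neg h1, if_neg (by tauto), zero_mul]

end general

variable {p m : ℕ} [NeZero p] [NeZero m] {z : ℝ≥0∞}

theorem sec_up (y : Core p (p * m)) :
    ∑ d, ∑' i, z ^ hs y d i ≤ z ^ mu y * Vop p z (W p z) (ty y) := by
  have hp := NeZero.pos p
  obtain ⟨μ, s, h⟩ := ex_rp hp (NeZero.pos m) y
  have h1 : Function.Injective fun v : ZMod (p * m) × ℤ => (v.1.val : ℤ) + (p * m : ℕ) * v.2 := by
    rintro ⟨d, i⟩ ⟨d', i'⟩ e
    simp only at e
    have e1 : d = d' := by
      have := congrArg (Int.cast : ℤ → ZMod (p * m)) e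
      simpa only [Int.cast_add, Int.cast_mul, Int.cast_natCast, ZMod.natCast_self, zero_mul,
        add_zero, ZMod.natCast_zmod_val] using this
    subst e1
    have e2 : ((p * m : ℕ) : ℤ) ≠ 0 := by exact_mod_cast NeZero.ne (p * m)
    rw [mul_left_cancel₀ e2 (add_left_cancel e)]
  have h2 : Function.Surjective fun v : Fin p × ℤ =>
      ((v.1 : ℕ) : ℤ) + p * (s + dsh p v.1 + v.2) := fun k => by
    have i1 := Int.emod_nonneg k (by omega : (p : ℤ) ≠ 0)
    have i2 := Int.emod_lt_of_pos k (by omega : (0 : ℤ) < p)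
    refine ⟨(⟨(k % p).toNat, by omega⟩, k / p - s - dsh p (k % p).toNat), ?_⟩
    simp only [Int.toNat_of_nonneg i1]
    linear_combination Int.emod_add_mul_ediv k p
  calc _ = ∑' v : ZMod (p * m) × ℤ, z ^ D y ((v.1.val : ℤ) + (p * m : ℕ) * v.2) := by
        rw [ENNReal.tsum_prod', tsum_fintype]
        rfl
    _ ≤ ∑' k, z ^ D y k := ENNReal.tsum_comp_le_tsum_of_injective h1 fun k => z ^ D y k
    _ ≤ _ := ENNReal.tsum_le_tsum_comp_of_surjective h2 _
    _ = _ := by
        rw [ENNReal.tsum_prod', tsum_fintype, Vop_eq hp, Finset.mul_sum,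
          ← Fin.sum_univ_eq_sum_range
            (fun r => z ^ mu y * (z ^ min r (p - r) * W p z (ty y + dig p r)))]
        refine Finset.sum_congr rfl fun r _ => ?_
        rw [W, ← mul_assoc, ← ENNReal.tsum_mul_left, mu_rp h]
        refine tsum_congr fun e => ?_
        have := D_sec h r.2 e 0
        simp only [mul_zero, add_zero] at this
        rw [this, pow_add, pow_add]

theorem good (hz : z ≤ 1) (y : Core p (p * m)) (d : ZMod (p * m)) (k : ℕ) (u : ℤ →₀ ℕ) :
    z ^ (⨅ i, hs y d i) * Fk p z (Vop p z (W p z)) k (u + slF p (hs y d)) ≤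
      Fk p z (Vop p z (W p z)) k u * ∑' i, z ^ hs y d i := by
  obtain ⟨μ, s, h⟩ := ex_rp (NeZero.pos p) (NeZero.pos m) y
  obtain ⟨C, hC⟩ := hs_lb (NeZero.pos p) (NeZero.pos m) h d
  obtain ⟨s', h'⟩ := (hs_cv y d).rp (NeZero.pos p) hC
  exact Fk_le le_rfl (Vop_le le_rfl (W_sec hz h')) k u

variable (p m z) in
/-- the truncated sum of a functional -/
noncomputable def AN (β : Prop) (N : ℕ) (φ : (ℤ →₀ ℕ) → ℝ≥0∞) : ℝ≥0∞ :=
  SA β fun c : Core p (p * m) => if mu c < N then z ^ mu c * φ (ty c) else 0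

theorem sec_up' (β : Prop) (N : ℕ) :
    (SA β fun y : Core p (p * m) => ∑ d, if mu y < N then ∑' i, z ^ hs y d i else 0) ≤
      AN p m z β N (Vop p z (W p z)) :=
  SA_mono β fun y => by
    split_ifs
    · exact sec_up y
    · simp

theorem AN_step (hz : z ≤ 1) (hz0 : z ≠ ∞) {b : ℝ≥0∞} (β : Prop) (N k : ℕ)
    (hb : z ^ 2 * AN p m z True N (Vop p z (W p z)) ≤ z ^ 2 + b) :
    AN p m z β (N + 1) (Fk p z (Vop p z (W p z)) k) ≤ Fk p z (Vop p z (W p z)) k 0 +
      ((if β then 0 else z * Fk p z (Vop p z (W p z)) k 0 * AN p m z False N (Vop p z (W p z))) +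
        (Fk p z (Vop p z (W p z)) k 0 + AN p m z β N (Fk p z (Vop p z (W p z)) (k + 1))) * b) := by
  have hp := NeZero.pos p
  have hm := NeZero.pos m
  set φ := Fk p z (Vop p z (W p z)) k with hφ
  set U : Core p (p * m) → ZMod (p * m) → ℝ≥0∞ :=
    fun y d => if mu y < N then ∑' i, z ^ hs y d i else 0 with hU
  have h1 : AN p m z β (N + 1) φ ≤ SA β (mk (φ 0) (fun y d => z * φ 0 * U y d)
      (fun x r => if mu x < N then z ^ mu x * (z ^ min r (p - r) * φ (ty x + dig p r)) else 0)
      (fun y d => z ^ 2 * U y d)) := by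
    refine SA_mono β fun c => ?_
    split_ifs with hc
    swap
    · exact zero_le
    cases c with
    | empty => simp [mk, mu_empty, ty]
    | up y d =>
      have h2 := mu_lt_up hp hm y d
      have h3 := good hz y d k 0
      rw [zero_add] at h3
      simp only [mk, hU, if_pos (show mu y < N by omega), mu_up hp hm, ty]
      rw [pow_add, pow_one, mul_assoc, mul_assoc]
      exact mul_le_mul' le_rfl h3
    | node x r y d =>
      have h2 := mu_lt_node hp hm x r y d
      have h3 := good hz y d k (ty x + dig p r.val)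
      simp only [mk, hU, if_pos (show mu y < N by omega), if_pos (show mu x < N by omega),
        mu_node hp hm, ty]
      calc _ = z ^ mu x * z ^ min r.val (p - r.val) * z ^ 2 *
            (z ^ (⨅ i, hs y d i) * φ (ty x + dig p r.val + slF p (hs y d))) := by ring
        _ ≤ z ^ mu x * z ^ min r.val (p - r.val) * z ^ 2 *
            (φ (ty x + dig p r.val) * ∑' i, z ^ hs y d i) := mul_le_mul' le_rfl h3
        _ = _ := by ring
  have h2 : SE (fun y d => z ^ 2 * U y d) ≤ b := by
    rcases Nat.eq_zero_or_pos N with rfl | hN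
    · simp [SE, hU]
    have h3 := SE_add (fun y d => z ^ 2 * U y d)
    simp only [← Finset.mul_sum, SA_mul] at h3
    have h4 : 1 ≤ U .empty 0 := by
      have := ENNReal.le_tsum (f := fun i : ℤ => z ^ hs (.empty : Core p (p * m)) 0 i) 0
      simpa [hU, mu_empty, hN, hs, D] using this
    rw [← ENNReal.add_le_add_iff_left (ENNReal.pow_ne_top (n := 2) hz0)]
    calc _ ≤ z ^ 2 * U .empty 0 + SE (fun y d => z ^ 2 * U y d) := by
          gcongr
          exact le_mul_of_one_le_right' h4
      _ ≤ z ^ 2 * AN p m z True N (Vop p z (W p z)) := by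
          rw [h3]
          exact mul_le_mul' le_rfl (sec_up' True N)
      _ ≤ _ := hb
  refine h1.trans ?_
  rw [SA_mk]
  refine add_le_add le_rfl (add_le_add ?_ (mul_le_mul' (add_le_add ?_ (le_of_eq ?_)) h2))
  · split_ifs
    · exact le_rfl
    · simp only [← Finset.mul_sum, SA_mul]
      exact mul_le_mul' le_rfl (sec_up' False N)
  · split_ifs <;> simp [mu_empty, ty, dig]
  · rw [AN]
    congr 1
    ext x
    split_ifs
    · rw [Fk, Fop, Finset.mul_sum]
    · simp

/-- the upper bound: below the root the series of the cores converges -/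
theorem upper (hz : z ≤ 1) (h : z * RR p z (Vop p z (W p z)) z 0 < 1) (hz0 : z ≠ 0) :
    ∃ T : ℝ≥0∞, T ≠ ∞ ∧ ∀ N, AN p m z False N (fun _ => 1) ≤ T := by
  have hz1 : z ≠ ∞ := ne_top_of_le_ne_top ENNReal.one_ne_top hz
  set V := Vop p z (W p z) with hV
  set R := RR p z V z 0 with hR
  have hR1 : R ≠ ∞ := fun e => by
    rw [e, ENNReal.mul_top hz0] at h
    exact not_top_lt h
  set T := (1 + z) * R * ∑' n : ℕ, (z * R) ^ n with hT
  have hT1 : T = (1 + z + z * T) * R := by
    have := tsum_eq_zero_add' (f := fun n : ℕ => (z * R) ^ n) ENNReal.summable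
    simp only [pow_zero, pow_succ', ENNReal.tsum_mul_left] at this
    calc T = (1 + z) * R * (1 + z * R * ∑' n : ℕ, (z * R) ^ n) := by rw [← this]
      _ = _ := by rw [hT]; ring
  have key : ∀ N k, AN p m z True N (Fk p z V k) ≤ (1 + z) * RR p z V z k ∧
      AN p m z False N (Fk p z V k) ≤ (1 + z + z * T) * RR p z V z k := by
    intro N
    induction N with
    | zero => intro k; simp [AN, SA]
    | succ N ih =>
      intro k
      have hb : z ^ 2 * AN p m z True N V ≤ z ^ 2 + z :=
        calc _ ≤ z ^ 2 * ((1 + z) * R) := mul_le_mul' le_rfl (ih 0).1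
          _ = (z ^ 2 + z) * (z * R) := by ring
          _ ≤ _ := mul_le_of_le_one_right' h.le
      constructor
      · refine (AN_step hz hz1 True N k hb).trans ?_
        rw [if_pos trivial, RR_succ V z k]
        calc _ ≤ Fk p z V k 0 + (0 + (Fk p z V k 0 + (1 + z) * RR p z V z (k + 1)) * z) := by
              gcongr
              exact (ih _).1
          _ = _ := by ring
      · refine (AN_step hz hz1 False N k hb).trans ?_
        rw [if_neg not_false, RR_succ V z k]
        calc _ ≤ Fk p z V k 0 + (z * Fk p z V k 0 * T +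
              (Fk p z V k 0 + (1 + z + z * T) * RR p z V z (k + 1)) * z) := by
              gcongr
              · exact (ih 0).2.trans hT1.ge
              · exact (ih _).2
          _ = _ := by ring
  refine ⟨T, ENNReal.mul_ne_top (ENNReal.mul_ne_top (by finiteness) hR1)
    (tsum_geometric_lt_top.2 h).ne, fun N => le_trans (SA_mono _ fun c => ?_)
      ((key N 0).2.trans hT1.ge)⟩
  split_ifs
  · exact mul_le_mul' le_rfl ((one_le_W _).trans le_self_add)
  · exact le_rfl

omit [NeZero p] in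
theorem iter_low {a : ℕ → ℝ≥0∞} {φ : (ℤ →₀ ℕ) → ℝ≥0∞} {b c : ℝ≥0∞}
    (h : ∀ k, c * Fk p z φ k 0 + b * a (k + 1) ≤ a k) : c * RR p z φ b 0 ≤ a 0 := by
  have h1 : ∀ n k, c * ∑ j ∈ Finset.range n, b ^ j * Fk p z φ (k + j) 0 ≤ a k := by
    intro n
    induction n with
    | zero => simp
    | succ n ih =>
      intro k
      refine le_trans ?_ ((add_le_add le_rfl (mul_le_mul' le_rfl (ih (k + 1)))).trans (h k))
      rw [Finset.sum_range_succ', mul_add, add_comm, pow_zero, one_mul, add_zero, mul_left_comm b,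
        Finset.mul_sum _ _ b]
      refine le_of_eq ?_
      congr 2
      refine Finset.sum_congr rfl fun j _ => ?_
      rw [show k + (j + 1) = k + 1 + j by ring]
      ring
  rw [RR, ENNReal.tsum_eq_iSup_nat, ENNReal.mul_iSup]
  exact iSup_le fun n => h1 n 0

end Pool.Agent.MP_e0ec03_al.Lim
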