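import Mathlib.Data.Real.Basic
import Mathlib.Algebra.BigOperators.Intervals

namespace Pool.Agent.MP_e0ec03_al.Lim

/-- The polynomial `1 - z - 2 z^2 + z^(a+2) + z^(p+1-a)`. -/
def den (p a : ℕ) (z : ℝ) : ℝ := 1 - z - 2 * z ^ 2 + z ^ (a + 2) + z ^ (p + 1 - a)

/-- The rational function whose level `2` gives the limit growth rate. -/
noncomputable def eqn (p : ℕ) (z : ℝ) : ℝ :=
  (1 - z ^ 2) * ((1 + z ^ p) / den p 0 z +
    (1 - z) * (1 - z ^ p) * ∑ a ∈ Finset.Ico 1 p, z ^ (a + 1) / (den p (a - 1) z * den p a z))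

end Pool.Agent.MP_e0ec03_al.Lim
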