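import Pool.Agent.MP_e0ec03_al.lim.Word

namespace Pool.Agent.MP_e0ec03_al.Lim

open scoped ENNReal
open Classical Core

variable {p q : ℕ} [NeZero p] [NeZero q] {z : ℝ≥0∞}

/-- the cost of a component together with its last label -/
noncomputable def cs (y : Core p q) (d : ZMod q) : ℕ := base y + Sl (sp y) (lab y d)

theorem sec_low {M : ℕ} (hM : 2 * M ≤ q + 1) (y : Core p q) :
    z ^ nu y * Vop p z (WM p z M) (tyl (sp y)) ≤ ∑ d, z ^ cs y d := by
  have hp := NeZero.pos p
  obtain ⟨s, h⟩ := Pl_rp (sp y)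
  set f : ℤ → ℝ≥0∞ := fun k => if Sl (sp y) k < M then z ^ (base y + Sl (sp y) k) else 0 with hf
  have h1 : Function.Injective fun v : Fin p × ℤ =>
      ((v.1 : ℕ) : ℤ) + p * (s + dsh p v.1 + v.2) := by
    rintro ⟨r, e⟩ ⟨r', e'⟩ e0
    simp only at e0
    have i1 : (p : ℤ) ∣ (r' : ℕ) - (r : ℕ) :=
      ⟨(s + dsh p r + e) - (s + dsh p r' + e'), by linear_combination -e0⟩
    have i2 : r = r' := by
      have := Int.eq_zero_of_abs_lt_dvd i1 (by rw [abs_lt]; omega)
      ext
      omega
    subst i2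
    have := mul_left_cancel₀ (by omega : (p : ℤ) ≠ 0) (add_left_cancel e0)
    rw [add_left_cancel this]
  have h2 : Function.Injective (lab y) := fun d d' e =>
    ZMod.injective_valMinAbs (sub_left_injective e)
  have h3 : Function.support f ⊆ Set.range (lab y) := fun k hk => by
    have i1 : Sl (sp y) k < M := by
      by_contra i1
      exact hk (if_neg i1)
    have i2 := le_Sl (sp y) k
    refine ⟨((sig (sp y) + k : ℤ) : ZMod q), ?_⟩
    rw [lab, (ZMod.valMinAbs_spec _ (sig (sp y) + k)).2 ⟨rfl, by constructor <;> omega⟩]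
    ring
  calc _ = ∑' v : Fin p × ℤ, f (((v.1 : ℕ) : ℤ) + p * (s + dsh p v.1 + v.2)) := by
        rw [ENNReal.tsum_prod', tsum_fintype, Vop_eq hp, Finset.mul_sum,
          ← Fin.sum_univ_eq_sum_range (fun r => z ^ nu y *
            (z ^ min r (p - r) * WM p z M (tyl (sp y) + dig p r)))]
        refine Finset.sum_congr rfl fun r _ => ?_
        rw [WM, ← mul_assoc, ← ENNReal.tsum_mul_left]
        refine tsum_congr fun e => ?_
        simp only [hf, Sl_sec h r.2 e]
        split_ifs
        · rw [msf_dig _ r.2, nu]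
          ring
        · simp
    _ ≤ ∑' k, f k := ENNReal.tsum_comp_le_tsum_of_injective h1 f
    _ = ∑ d, f (lab y d) := by rw [← h2.tsum_eq h3, tsum_fintype]
    _ ≤ _ := Finset.sum_le_sum fun d _ => by
        simp only [hf]
        split_ifs
        · exact le_rfl
        · exact zero_le

/-- the lower bound: convergence of the series of the words forces a subcritical fixed point -/
theorem lower {M : ℕ} (hM : 2 * M ≤ q + 1) (h : (SA False fun c : Core p q => z ^ nu c) ≠ ∞) :
    ∃ b : ℝ≥0∞, b ≠ ∞ ∧ z ^ 2 * ((1 + b) * RR p z (Vop p z (WM p z M)) b 0) ≤ z ^ 2 + b ∧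
      z * RR p z (Vop p z (WM p z M)) b 0 < 1 := by
  set V := Vop p z (WM p z M) with hV
  set b := SE fun (y : Core p q) d => z ^ 2 * z ^ cs y d with hb
  set τ := SA False fun y : Core p q => ∑ d, z ^ cs y d with hτ
  have step : ∀ (β : Prop) (φ : (ℤ →₀ ℕ) → ℝ≥0∞),
      (1 + b + if β then 0 else z * τ) * φ 0 +
        b * (SA β fun c : Core p q => z ^ nu c * Fop p z φ (tyl (sp c))) ≤
          SA β fun c : Core p q => z ^ nu c * φ (tyl (sp c)) := by
    intro β φ
    have h1 : (fun c : Core p q => z ^ nu c * φ (tyl (sp c))) =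
        mk (φ 0) (fun (y : Core p q) d => z * φ 0 * z ^ cs y d)
          (fun x r => z ^ nu x * (z ^ min r (p - r) * φ (tyl (sp x) + dig p r)))
          (fun y d => z ^ 2 * z ^ cs y d) := by
      ext c
      cases c with
      | empty => simp [mk, nu, base, sp, tyl, msf]
      | up y d =>
        simp only [mk, nu, base, sp, tyl, msf, cs, Finsupp.sum_zero_index]
        ring
      | node x r y d =>
        simp only [mk, nu, base, sp, tyl, cs, msf_dig _ (ZMod.val_lt r)]
        ring
    rw [h1, SA_mk]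
    simp only [← Finset.mul_sum, SA_mul, nu, base, sp, tyl, msf, Finsupp.sum_zero_index, dig,
      if_true, Nat.zero_min, pow_zero, one_mul, add_zero]
    simp only [Fop, dig]
    refine le_of_eq ?_
    split_ifs <;> ring
  have h1 := step False fun _ => 1
  simp only [if_false, mul_one] at h1
  have h2 : 1 + b + z * τ ≠ ∞ := ne_top_of_le_ne_top h (le_self_add.trans h1)
  have h3 : b ≠ ∞ := ne_top_of_le_ne_top h2 (le_add_self.trans le_self_add)
  have h4 : z * τ ≠ ∞ := ne_top_of_le_ne_top h2 le_add_self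
  have h5 : ∀ β : Prop, (1 + b + if β then 0 else z * τ) * RR p z V b 0 ≤
      SA β fun y : Core p q => ∑ d, z ^ cs y d := fun β =>
    (iter_low (a := fun k => SA β fun c : Core p q => z ^ nu c * Fk p z V k (tyl (sp c)))
      fun k => step β _).trans (SA_mono β fun y => sec_low hM y)
  refine ⟨b, h3, ?_, ?_⟩
  · have h6 := SE_add fun (y : Core p q) d => z ^ 2 * z ^ cs y d
    have h7 : cs (.empty : Core p q) 0 = 0 := by simp [cs, base, sp, lab, sig, Sl_nil]
    simp only [← Finset.mul_sum, SA_mul, h7, pow_zero, mul_one] at h6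
    have h8 := h5 True
    rw [if_pos trivial, add_zero] at h8
    rw [hb, h6]
    exact mul_le_mul' le_rfl h8
  · have h8 := h5 False
    rw [if_neg not_false] at h8
    by_contra h9
    have h10 : (1 + b + z * τ) * 1 ≤ z * τ :=
      calc _ ≤ (1 + b + z * τ) * (z * RR p z V b 0) := mul_le_mul' le_rfl (not_lt.1 h9)
        _ = z * ((1 + b + z * τ) * RR p z V b 0) := by ring
        _ ≤ _ := mul_le_mul' le_rfl h8
    rw [mul_one, add_comm] at h10
    have := (ENNReal.add_le_add_iff_left h4).1 (h10.trans_eq (add_zero _).symm)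
    simp at this

omit [NeZero p] [NeZero q] in
theorem SA_cnt {μ : Core p q → ℕ} (hf : ∀ n, {c : Core p q | valid c ∧ μ c = n}.Finite)
    (g : ℕ → ℝ≥0∞) : (SA False fun c : Core p q => g (μ c)) =
      ∑' n, ({c : Core p q | valid c ∧ μ c = n}.ncard : ℝ≥0∞) * g n := by
  have h : ∀ n, ({c : Core p q | valid c ∧ μ c = n}.ncard : ℝ≥0∞) * g n =
      ∑' c : Core p q, if valid c ∧ μ c = n then g n else 0 := fun n => by
    rw [tsum_eq_sum (s := (hf n).toFinset) fun c hc => if_neg (by simpa using hc),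
      Finset.sum_congr rfl fun c hc => if_pos (by simpa using hc), Finset.sum_const, nsmul_eq_mul,
      Set.ncard_eq_toFinset_card _ (hf n)]
  simp only [h]
  rw [ENNReal.tsum_comm, SA]
  refine tsum_congr fun c => ?_
  rw [tsum_eq_single (μ c) fun n hn => if_neg fun h => hn h.2.symm]
  simp

theorem SA_nu {x : ℝ} (hx : 0 ≤ x) (hs : Summable fun n => ((ball p q n).ncard : ℝ) * x ^ n) :
    (SA False fun c : Core p q => ENNReal.ofReal x ^ nu c) ≠ ∞ := by
  rw [SA_cnt (fun n => ?_) fun n => ENNReal.ofReal x ^ n]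
  · refine ne_top_of_le_ne_top hs.tsum_ofReal_ne_top (ENNReal.tsum_le_tsum fun n => ?_)
    obtain ⟨f, h1, h2⟩ := nu_inj (p := p) (q := q) n
    rw [ENNReal.ofReal_mul (by positivity), ENNReal.ofReal_natCast, ENNReal.ofReal_pow hx]
    gcongr
    exact Set.ncard_le_ncard_of_injOn f h1 h2 (ball_finite n)
  · obtain ⟨f, h1, h2⟩ := nu_inj (p := p) (q := q) n
    exact Set.Finite.of_injOn h1 h2 (ball_finite n)

end Pool.Agent.MP_e0ec03_al.Lim
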