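import Pool.Agent.MP_e0ec03_al.lim.Root
import Pool.Agent.MP_e0ec03_al.lim.Low

namespace Pool.Agent.MP_e0ec03_al.Lim

open scoped ENNReal
open Classical Core Filter Topology

theorem final_ineq {ζ x b r R h η : ℝ} (h1 : 1 / 4 < ζ) (h2 : ζ < x) (h3 : x < 1) (hb : 0 ≤ b)
    (hb' : b ≤ ζ) (hr : 1 + x ≤ r) (hR : R ≤ r + η) (hη : 0 ≤ η) (hR0 : 0 ≤ R)
    (h4 : x ^ 2 * ((1 + b) * r) ≤ x ^ 2 + b) (h5 : 1 ≤ ζ * (R * (1 + (ζ - b) * h)))
    (h6 : ζ * (1 + ζ) * h ≤ 1 - ζ) : 1 / ζ - 65 * η ≤ 1 / x := by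
  have hζ : 0 < ζ := by linarith
  have hx : 0 < x := by linarith
  have hδ : 0 ≤ ζ - b := by linarith
  set E := ζ * (1 + ζ) + (ζ - b) * (1 - ζ) with hE
  have hE0 : 0 < E := by
    have : 0 ≤ (ζ - b) * (1 - ζ) := mul_nonneg hδ (by linarith)
    positivity
  have i1 : 1 + ζ ≤ R * E :=
    calc 1 + ζ ≤ (1 + ζ) * (ζ * (R * (1 + (ζ - b) * h))) :=
          le_mul_of_one_le_right (by linarith) h5
      _ = R * (ζ * (1 + ζ) + (ζ - b) * (ζ * (1 + ζ) * h)) := by ring
      _ ≤ _ := by rw [hE]; gcongr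
  have i2 : ζ ^ 2 + b ≤ ζ ^ 2 * ((1 + b) * R) := by
    refine le_of_mul_le_mul_right ?_ hE0
    have i3 : 0 ≤ (ζ - b) ^ 2 * (1 - ζ) := mul_nonneg (sq_nonneg _) (by linarith)
    calc _ ≤ ζ ^ 2 * (1 + b) * (1 + ζ) := by rw [hE]; nlinarith
      _ ≤ ζ ^ 2 * (1 + b) * (R * E) := by gcongr
      _ = _ := by ring
  have i4 : 1 / 64 ≤ b := by
    have i5 : x ^ 2 * ((1 + b) * (1 + x)) ≤ x ^ 2 * ((1 + b) * r) := by gcongr
    have i6 : (1 / 4) ^ 3 ≤ x ^ 3 := by gcongr; linarith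
    have i7 : 0 ≤ x ^ 2 * (b * (1 + x)) := by positivity
    nlinarith
  have i5 : 1 + b * (1 / ζ) ^ 2 ≤ (1 + b) * R := by
    refine le_of_mul_le_mul_left (le_trans (le_of_eq ?_) i2) (pow_pos hζ 2)
    field_simp
  have i6 : (1 + b) * r ≤ 1 + b * (1 / x) ^ 2 := by
    refine le_of_mul_le_mul_left (h4.trans (le_of_eq ?_)) (pow_pos hx 2)
    field_simp
  have i7 : 1 / x < 1 / ζ := one_div_lt_one_div_of_lt hζ h2
  have i8 : 1 < 1 / x := one_lt_one_div hx h3
  set A := 1 / ζ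
  set B := 1 / x
  have i9 : (1 + b) * R ≤ (1 + b) * (r + η) := by gcongr
  have i10 : b * (A - B) ≤ b * (65 * η) := by
    have j1 : b * (A - B) * 1 ≤ b * (A - B) * (A + B) := by
      have : 0 ≤ A - B := by linarith
      gcongr
      linarith
    have j2 : (1 + b) * η ≤ 65 * b * η := by gcongr; linarith
    nlinarith
  have := le_of_mul_le_mul_left i10 (by linarith)
  linarith

variable {p q m : ℕ} [NeZero p] [NeZero q] [NeZero m]

omit [NeZero q] in
theorem summable_of_lt {x : ℝ} (h0 : 0 < x) (h1 : x < 1 / 2) (h : x * Rr p x < 1) :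
    Summable fun n => (cnt p (p * m) n : ℝ) * x ^ n := by
  have hp := NeZero.pos p
  obtain ⟨T, h2, h3⟩ := upper (p := p) (m := m) (z := .ofReal x)
    (ENNReal.ofReal_le_one.2 (by linarith)) (by
      rw [← ENNReal.ofReal_toReal (RR_ne hp h0.le h1), ← ENNReal.ofReal_mul h0.le]
      exact ENNReal.ofReal_lt_one.2 h) (ENNReal.ofReal_pos.2 h0).ne'
  have hf : ∀ n, {c : Core p (p * m) | valid c ∧ mu c = n}.Finite := fun n =>
    (fin_mu (n + 1)).subset fun c hc => by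
      have := hc.2
      simp only [Set.mem_ofPred_eq]
      omega
  have h4 : ∑' n, (cnt p (p * m) n : ℝ≥0∞) * .ofReal x ^ n ≤ T := by
    refine ENNReal.tsum_le_of_sum_range_le fun N => le_trans ?_ (h3 N)
    simp only [AN, mul_one]
    rw [SA_cnt hf fun n => if n < N then ENNReal.ofReal x ^ n else 0]
    refine le_trans (le_of_eq ?_) (ENNReal.sum_le_tsum (Finset.range N))
    exact Finset.sum_congr rfl fun n hn => by rw [if_pos (Finset.mem_range.1 hn), cnt]
  simpa [ENNReal.toReal_ofReal h0.le] using ENNReal.summable_toReal (ne_top_of_le_ne_top h2 h4)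

omit [NeZero m] in
theorem lower_real (hp : 1 < p) (hq : 2 < q) {ζ x : ℝ} (h1 : 1 / 4 < ζ) (h2 : ζ < 21 / 50)
    (h3 : ζ * Rr p ζ = 1) (h4 : ζ < x) (h5 : x < 1)
    (hs : Summable fun n => ((ball p q n).ncard : ℝ) * x ^ n) :
    1 / ζ - 1625 * (47 / 50) ^ q ≤ 1 / x := by
  have hp0 := NeZero.pos p
  have hζ : 0 < ζ := by linarith
  have hζ' : ζ < 1 / 2 := by linarith
  have hx : 0 < x := by linarith
  have hz : ENNReal.ofReal x ≤ 1 := ENNReal.ofReal_le_one.2 h5.le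
  have hζz : ENNReal.ofReal ζ ≤ .ofReal x := ENNReal.ofReal_le_ofReal h4.le
  obtain ⟨b, i1, i2, i3⟩ := lower (p := p) (q := q) (M := (q + 1) / 2) (by omega) (SA_nu hx.le hs)
  set r := RR p (.ofReal x) (Vop p (.ofReal x) (WM p (.ofReal x) ((q + 1) / 2))) b 0 with hr
  have i4 : r ≠ ∞ := fun e => by
    rw [e, ENNReal.mul_top (ENNReal.ofReal_pos.2 hx).ne'] at i3
    exact not_top_lt i3
  set η : ℝ := 25 * (47 / 50) ^ q with hη
  have hη0 : 0 ≤ η := by positivity
  have i5 : ∀ β, β ≤ b → β ≤ .ofReal ζ →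
      (RR p (.ofReal ζ) (Vop p (.ofReal ζ) (W p (.ofReal ζ))) β 0).toReal ≤ r.toReal + η := by
    intro β j1 j2
    have j4 := RR_loss (p := p) (z := .ofReal ζ) (κ := .ofReal (7 / 8)) (z' := .ofReal (12 / 25))
      (ENNReal.ofReal_le_one.2 (by norm_num)) (by
        rw [← ENNReal.ofReal_mul (by norm_num)]
        exact ENNReal.ofReal_le_ofReal (by linarith)) ((q + 1) / 2) β
    have j5 := (RR_mono (p := p) le_rfl (j2.trans (ENNReal.ofReal_le_ofReal
      (by linarith : ζ ≤ 12 / 25))) (fun _ => le_rfl) 0).trans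
        (RR_le hp0 (x := 12 / 25) (by norm_num) (by norm_num))
    have j6 : ((7 : ℝ) / 8) ^ ((q + 1) / 2) ≤ (47 / 50) ^ q :=
      calc _ ≤ (((47 : ℝ) / 50) ^ 2) ^ ((q + 1) / 2) := by gcongr; norm_num
        _ ≤ _ := by
          rw [← pow_mul]
          exact pow_le_pow_of_le_one (by norm_num) (by norm_num) (by omega)
    refine ENNReal.toReal_le_of_le_ofReal (by positivity) (j4.trans ?_)
    rw [ENNReal.ofReal_add ENNReal.toReal_nonneg hη0, ENNReal.ofReal_toReal i4]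
    refine add_le_add (RR_mono hζz j1 (Vop_mono hζz (WM_mono hζz _)) 0)
      ((mul_le_mul' le_rfl j5).trans ?_)
    rw [← ENNReal.ofReal_pow (by norm_num), ← ENNReal.ofReal_mul (by positivity)]
    refine ENNReal.ofReal_le_ofReal ?_
    rw [hη]
    norm_num
    linarith
  have e : (1625 : ℝ) * (47 / 50) ^ q = 65 * η := by rw [hη]; ring
  rw [e]
  rcases le_total (.ofReal ζ) b with hb | hb
  · have j1 : Rr p ζ ≤ r.toReal + η := i5 _ hb le_rfl
    have j2 : x * r.toReal < 1 := by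
      rw [← ENNReal.ofReal_toReal i4, ← ENNReal.ofReal_mul hx.le] at i3
      exact ENNReal.ofReal_lt_one.1 i3
    have j3 : r.toReal < 1 / x := by rw [lt_div_iff₀ hx]; linarith
    have j4 : 1 / ζ = Rr p ζ := by rw [div_eq_iff hζ.ne']; linarith
    linarith
  · have j0 : b.toReal ≤ ζ := ENNReal.toReal_le_of_le_ofReal hζ.le hb
    have j1 : b + .ofReal (ζ - b.toReal) = .ofReal ζ := by
      rw [← ENNReal.ofReal_toReal i1, ← ENNReal.ofReal_add ENNReal.toReal_nonneg
        (by rw [ENNReal.ofReal_toReal i1]; linarith), ENNReal.ofReal_toReal i1]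
      congr 1
      ring
    have j2 : RR p (.ofReal ζ) (Vop p (.ofReal ζ) (W p (.ofReal ζ))) b 0 ≠ ∞ :=
      ne_top_of_le_ne_top (RR_ne hp0 hζ.le hζ') (RR_mono le_rfl hb (fun _ => le_rfl) 0)
    have j3 := (H_ne hp0 hζ.le hζ').2
    have j4 := RR_diff (p := p) (hζz.trans hz) (δ := .ofReal (ζ - b.toReal)) i1 j2 (by rwa [j1])
    rw [j1] at j4
    have j5 := ENNReal.toReal_mono (by finiteness) j4
    rw [ENNReal.toReal_mul, ENNReal.toReal_add (by finiteness) (by finiteness), ENNReal.toReal_mul,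
      ENNReal.toReal_one, ENNReal.toReal_ofReal (by linarith)] at j5
    have j6 := ENNReal.toReal_mono (by finiteness) i2
    rw [ENNReal.toReal_mul, ENNReal.toReal_mul, ENNReal.toReal_add (by finiteness) i1,
      ENNReal.toReal_add (by finiteness) i1, ENNReal.toReal_pow, ENNReal.toReal_one,
      ENNReal.toReal_ofReal hx.le] at j6
    have j7 : 1 + x ≤ r.toReal := by
      rw [← ENNReal.ofReal_le_iff_le_toReal i4, hr, RR_succ,
        ENNReal.ofReal_add zero_le_one hx.le, ENNReal.ofReal_one]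
      refine le_add_right (add_le_add (one_le_WM (by simp only [msf, Finsupp.sum_zero_index]; omega))
        ?_)
      refine le_trans ?_ (Finset.single_le_sum (f := fun r => ENNReal.ofReal x ^ min r (p - r) *
        WM p (.ofReal x) ((q + 1) / 2) (0 + dig p r)) (fun _ _ => zero_le)
          (Finset.mem_Ioo.2 ⟨Nat.one_pos, hp⟩))
      rw [show min 1 (p - 1) = 1 by omega, pow_one]
      refine le_mul_of_one_le_right' (one_le_WM ?_)
      rw [msf_dig _ hp]
      simp only [msf, Finsupp.sum_zero_index]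
      omega
    obtain ⟨j8, j9⟩ := Rr_eq hp0 hζ.le hζ'
    have j10 : 1 ≤ (1 + ζ ^ p) / (1 - ζ ^ p) := by
      have k1 : ζ ^ p < 1 := pow_lt_one₀ hζ.le (by linarith) hp0.ne'
      have k2 : 0 ≤ ζ ^ p := by positivity
      rw [le_div_iff₀ (by linarith)]
      linarith
    refine final_ineq (h := Hr p ζ 1) h1 h4 h5 ENNReal.toReal_nonneg j0 j7 (i5 b le_rfl hb) hη0
      ENNReal.toReal_nonneg j6 (h3.ge.trans (mul_le_mul_of_nonneg_left j5 hζ.le)) ?_
    rw [j8, j9] at h3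
    nlinarith

omit [NeZero m] in
theorem rate (hp : 1 < p) (hq : p < q) {ζ : ℝ} (h1 : 1 / 4 < ζ) (h2 : ζ < 21 / 50)
    (h3 : ζ * Rr p ζ = 1) (h4 : ∀ x, 0 < x → x < ζ → x * Rr p x < 1) :
    ∃ ω : ℝ, Tendsto (fun n : ℕ => ((ball p q n).ncard : ℝ) ^ (1 / (n : ℝ))) atTop (𝓝 ω) ∧
      1 / ζ - 1625 * (47 / 50) ^ q ≤ ω ∧ (p ∣ q → ω ≤ 1 / ζ) := by
  obtain ⟨w, i1, i2, -, i3⟩ := growth_exists (fun n => (ball p q n).ncard) ball_pos ball_submul
  have hζ : 0 < ζ := by linarith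
  have hw : 0 < w := by linarith
  refine ⟨w, i2, le_of_forall_gt_imp_ge_of_dense fun y hy => ?_,
    fun hd => le_of_forall_lt_imp_le_of_dense fun y hy => ?_⟩
  · have hy0 : 0 < y := by linarith
    rcases le_or_gt (1 / ζ) y with h | h
    · have : (0 : ℝ) ≤ 1625 * (47 / 50) ^ q := by positivity
      linarith
    have := lower_real (q := q) hp (by omega) h1 h2 h3 (x := 1 / y) ((lt_one_div hy0 hζ).1 h)
      ((div_lt_one hy0).2 (by linarith)) (i3 _ (by positivity) (by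
        rw [one_div, inv_mul_lt_iff₀ hy0]
        linarith))
    rwa [one_div_one_div] at this
  · obtain ⟨w', -, j2, -, -, -, j4⟩ := growth_core (p := p) (q := q) hd
    obtain rfl := tendsto_nhds_unique i2 j2
    obtain ⟨m, rfl⟩ := hd
    have : NeZero m := ⟨by rintro rfl; omega⟩
    by_contra h
    have hy0 : 0 < y := (one_div_pos.2 hζ).trans (not_le.1 h)
    have h5 : 1 / y < ζ := (one_div_lt hy0 hζ).2 (not_le.1 h)
    have h6 := j4 (1 / y) (by positivity) (by linarith)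
      (summable_of_lt (by positivity) (by linarith) (h4 _ (by positivity) h5))
    rw [one_div, inv_mul_le_iff₀ hy0] at h6
    linarith

theorem eqn_two : eqn 2 ((√3 - 1) / 2) = 2 := by
  have h : √3 ^ 2 = 3 := Real.sq_sqrt (by norm_num)
  have h1 : 1 < √3 := by rw [Real.lt_sqrt (by norm_num)]; norm_num
  have h2 : √3 < 2 := by rw [Real.sqrt_lt' (by norm_num)]; norm_num
  set z := (√3 - 1) / 2 with hz
  have h3 : 2 * z ^ 2 + 2 * z - 1 = 0 := by rw [hz]; nlinarith
  have h4 : 1 - z ≠ 0 := by rw [hz]; linarith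
  have h5 : 1 + z ≠ 0 := by rw [hz]; linarith
  have h6 : den 2 0 z = (1 - z) ^ 2 * (1 + z) := by rw [den]; ring
  have h7 : den 2 1 z = (1 - z) ^ 2 * (1 + z) := by rw [den]; ring
  rw [eqn, show Finset.Ico 1 2 = {1} from rfl, Finset.sum_singleton, Nat.sub_self, h6, h7,
    show 1 - z ^ 2 = (1 - z) * (1 + z) by ring]
  field_simp
  linear_combination h3

end Pool.Agent.MP_e0ec03_al.Lim
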