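import Mathlib.Analysis.SpecificLimits.Basic
import Mathlib.Topology.Algebra.InfiniteSum.ENNReal
import Pool.Agent.MP_e0ec03_al.FESys

namespace Pool.Agent.MP_e0ec03_al.Lim

open scoped ENNReal

variable {p : ℕ} {z : ℝ≥0∞}

/-- the total weight of a profile -/
noncomputable def W (p : ℕ) (z : ℝ≥0∞) (u : ℤ →₀ ℕ) : ℝ≥0∞ := ∑' j : ℤ, z ^ prof p u j

/-- adding one nonzero digit -/
noncomputable def Fop (p : ℕ) (z : ℝ≥0∞) (φ : (ℤ →₀ ℕ) → ℝ≥0∞) (u : ℤ →₀ ℕ) : ℝ≥0∞ :=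
  ∑ r ∈ Finset.Ioo 0 p, z ^ min r (p - r) * φ (u + dig p r)

/-- adding `k` nonzero digits -/
noncomputable def Fk (p : ℕ) (z : ℝ≥0∞) (φ : (ℤ →₀ ℕ) → ℝ≥0∞) : ℕ → (ℤ →₀ ℕ) → ℝ≥0∞
  | 0 => φ
  | k + 1 => Fop p z (Fk p z φ k)

/-- adding one arbitrary digit -/
noncomputable def Vop (p : ℕ) (z : ℝ≥0∞) (φ : (ℤ →₀ ℕ) → ℝ≥0∞) (u : ℤ →₀ ℕ) : ℝ≥0∞ :=
  φ u + Fop p z φ u

/-- the series of a component, from the index `k` on -/
noncomputable def RR (p : ℕ) (z : ℝ≥0∞) (φ : (ℤ →₀ ℕ) → ℝ≥0∞) (b : ℝ≥0∞) (k : ℕ) : ℝ≥0∞ :=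
  ∑' j : ℕ, b ^ j * Fk p z φ (k + j) 0

theorem RR_succ (φ : (ℤ →₀ ℕ) → ℝ≥0∞) (b : ℝ≥0∞) (k : ℕ) :
    RR p z φ b k = Fk p z φ k 0 + b * RR p z φ b (k + 1) := by
  rw [RR, tsum_eq_zero_add' ENNReal.summable, RR, ← ENNReal.tsum_mul_left]
  simp only [pow_zero, one_mul, add_zero]
  congr 1
  refine tsum_congr fun j => ?_
  rw [show k + (j + 1) = k + 1 + j by ring]
  ring

theorem Vop_eq (hp : 0 < p) (φ : (ℤ →₀ ℕ) → ℝ≥0∞) (u : ℤ →₀ ℕ) :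
    Vop p z φ u = ∑ r ∈ Finset.range p, z ^ min r (p - r) * φ (u + dig p r) := by
  rw [Finset.range_eq_Ico, ← Finset.Ioo_insert_left hp, Finset.sum_insert (by simp), Vop, Fop]
  simp [dig]

theorem Fop_le {z' c e : ℝ≥0∞} (hz : z ≤ z') {φ ψ : (ℤ →₀ ℕ) → ℝ≥0∞} {t : ℤ →₀ ℕ}
    (h : ∀ u, c * φ (u + t) ≤ ψ u * e) (u : ℤ →₀ ℕ) :
    c * Fop p z φ (u + t) ≤ Fop p z' ψ u * e := by
  rw [Fop, Fop, Finset.mul_sum, Finset.sum_mul]
  refine Finset.sum_le_sum fun r _ => ?_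
  have h1 := h (u + dig p r)
  rw [add_right_comm u t]
  calc _ = z ^ min r (p - r) * (c * φ (u + dig p r + t)) := by ring
    _ ≤ z' ^ min r (p - r) * (ψ (u + dig p r) * e) := by gcongr
    _ = _ := by ring

theorem Fk_le {z' c e : ℝ≥0∞} (hz : z ≤ z') {φ ψ : (ℤ →₀ ℕ) → ℝ≥0∞} {t : ℤ →₀ ℕ}
    (h : ∀ u, c * φ (u + t) ≤ ψ u * e) :
    ∀ k u, c * Fk p z φ k (u + t) ≤ Fk p z' ψ k u * e
  | 0 => h
  | k + 1 => Fop_le hz (Fk_le hz h k)

theorem Vop_le {z' c e : ℝ≥0∞} (hz : z ≤ z') {φ ψ : (ℤ →₀ ℕ) → ℝ≥0∞} {t : ℤ →₀ ℕ}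
    (h : ∀ u, c * φ (u + t) ≤ ψ u * e) (u : ℤ →₀ ℕ) :
    c * Vop p z φ (u + t) ≤ Vop p z' ψ u * e := by
  rw [Vop, Vop, mul_add, add_mul]
  exact add_le_add (h u) (Fop_le hz h u)

theorem Fk_mono {z' : ℝ≥0∞} (hz : z ≤ z') {φ ψ : (ℤ →₀ ℕ) → ℝ≥0∞} (h : ∀ u, φ u ≤ ψ u)
    (k : ℕ) (u : ℤ →₀ ℕ) : Fk p z φ k u ≤ Fk p z' ψ k u := by
  simpa using Fk_le (p := p) (c := 1) (e := 1) (t := 0) hz (by simpa using h) k u

theorem Vop_mono {z' : ℝ≥0∞} (hz : z ≤ z') {φ ψ : (ℤ →₀ ℕ) → ℝ≥0∞} (h : ∀ u, φ u ≤ ψ u)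
    (u : ℤ →₀ ℕ) : Vop p z φ u ≤ Vop p z' ψ u := by
  simpa using Vop_le (p := p) (c := 1) (e := 1) (t := 0) hz (by simpa using h) u

theorem RR_mono {z' b b' : ℝ≥0∞} (hz : z ≤ z') (hb : b ≤ b') {φ ψ : (ℤ →₀ ℕ) → ℝ≥0∞}
    (h : ∀ u, φ u ≤ ψ u) (k : ℕ) : RR p z φ b k ≤ RR p z' ψ b' k :=
  ENNReal.tsum_le_tsum fun j => mul_le_mul' (by gcongr) (Fk_mono hz h _ _)

theorem Fk_add (φ ψ : (ℤ →₀ ℕ) → ℝ≥0∞) :
    ∀ k u, Fk p z (fun u => φ u + ψ u) k u = Fk p z φ k u + Fk p z ψ k u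
  | 0, _ => rfl
  | k + 1, u => by
    simp only [Fk, Fop, Fk_add φ ψ k, mul_add, Finset.sum_add_distrib]

theorem Fk_mul (c : ℝ≥0∞) (φ : (ℤ →₀ ℕ) → ℝ≥0∞) :
    ∀ k u, Fk p z (fun u => c * φ u) k u = c * Fk p z φ k u
  | 0, _ => rfl
  | k + 1, u => by
    simp only [Fk, Fop, Fk_mul c φ k, Finset.mul_sum]
    exact Finset.sum_congr rfl fun r _ => by ring

theorem Fk_Fk (φ : (ℤ →₀ ℕ) → ℝ≥0∞) (i : ℕ) :
    ∀ j, Fk p z φ (i + j) = Fk p z (Fk p z φ i) j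
  | 0 => rfl
  | j + 1 => by rw [← add_assoc, Fk, Fk, Fk_Fk φ i j]

theorem Fk_Vop (φ : (ℤ →₀ ℕ) → ℝ≥0∞) (k : ℕ) (u : ℤ →₀ ℕ) :
    Fk p z (Vop p z φ) k u = Fk p z φ k u + Fk p z φ (k + 1) u := by
  rw [add_comm k 1, Fk_Fk φ 1 k]
  exact Fk_add φ _ k u

theorem tsum_conv (hz : z ≤ 1) {f g k : ℤ → ℕ} {s : ℤ}
    (h : ∀ j, ∃ a i, a + i = s + j ∧ f a + g i ≤ k j) :
    ∑' j, z ^ k j ≤ (∑' a, z ^ f a) * ∑' i, z ^ g i := by
  choose a i h1 h2 using h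
  have hi : Function.Injective fun j => (a j, i j) := fun j j' e => by
    have e1 := h1 j
    have e2 := h1 j'
    simp only [Prod.mk.injEq] at e
    omega
  calc _ ≤ ∑' j, (fun v : ℤ × ℤ => z ^ f v.1 * z ^ g v.2) (a j, i j) :=
        ENNReal.tsum_le_tsum fun j => by
          simp only [← pow_add]
          exact pow_le_pow_right_of_le_one' hz (h2 j)
    _ ≤ ∑' v : ℤ × ℤ, z ^ f v.1 * z ^ g v.2 := ENNReal.tsum_comp_le_tsum_of_injective hi _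
    _ = _ := by
        rw [ENNReal.tsum_prod']
        simp only [ENNReal.tsum_mul_left, ENNReal.tsum_mul_right]

theorem prof_lip (u : ℤ →₀ ℕ) (a c : ℤ) : prof p u (a + c) ≤ prof p u a + p * c.natAbs := by
  obtain ⟨e, h1, h2⟩ := prof_ex (p := p) u a
  have h3 := prof_le (p := p) h1 (a + c)
  have h4 := tri p (a - sg e) c (a + c - sg e) (by ring)
  omega

theorem W_add (hz : z ≤ 1) (u t : ℤ →₀ ℕ) : W p z (u + t) ≤ W p z u * W p z t := by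
  refine tsum_conv hz (s := 0) fun j => ?_
  obtain ⟨a, i, h1, h2⟩ := conv_ex (prof p u) (prof p t) j
  exact ⟨a, i, by omega, by rw [prof_add, h2]⟩

theorem W_sec (hz : z ≤ 1) {g : ℤ → ℕ} {μ : ℕ} {s : ℤ} {t : ℤ →₀ ℕ}
    (h : Rp p (conv g (psi p 0)) μ s t) (u : ℤ →₀ ℕ) :
    z ^ μ * W p z (u + t) ≤ W p z u * ∑' i, z ^ g i := by
  rw [W, ← ENNReal.tsum_mul_left]
  simp only [← pow_add]
  refine tsum_conv hz (s := s) fun j => ?_
  obtain ⟨a, b, h1, h2⟩ := conv_ex (prof p u) (prof p t) j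
  obtain ⟨i, c, h3, h4⟩ := conv_ex g (psi p 0) (s + b)
  have h5 := h b
  have h6 := prof_lip (p := p) u a c
  rw [psi_zero] at h4
  exact ⟨a + c, i, by omega, by rw [prof_add]; omega⟩

theorem one_le_W (u : ℤ →₀ ℕ) : 1 ≤ W p z u := by
  have := ENNReal.le_tsum (f := fun j : ℤ => z ^ prof p u j) 0
  rwa [prof_at_zero, pow_zero] at this

theorem W_mono {z' : ℝ≥0∞} (hz : z ≤ z') (u : ℤ →₀ ℕ) : W p z u ≤ W p z' u :=
  ENNReal.tsum_le_tsum fun j => by gcongr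

/-- submultiplicativity of the coefficients -/
theorem rho_add (hz : z ≤ 1) (j k : ℕ) :
    Fk p z (Vop p z (W p z)) (j + k) 0 ≤ Fk p z (Vop p z (W p z)) j 0 * Fk p z (W p z) k 0 := by
  rw [Fk_Fk, ← Fk_mul]
  refine Fk_mono le_rfl (fun t => ?_) k 0
  have := Fk_le (p := p) (c := 1) (t := t) (e := W p z t) (le_refl z)
    (Vop_le (p := p) (le_refl z) fun u => by rw [one_mul]; exact W_add hz u t) j 0
  simpa using this

theorem RR_shift (hz : z ≤ 1) (b : ℝ≥0∞) (k : ℕ) :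
    RR p z (Vop p z (W p z)) b k ≤ RR p z (Vop p z (W p z)) b 0 * Fk p z (W p z) k 0 := by
  rw [RR, RR, ← ENNReal.tsum_mul_right]
  refine ENNReal.tsum_le_tsum fun j => ?_
  rw [zero_add, add_comm k j, mul_assoc]
  exact mul_le_mul' le_rfl (rho_add hz j k)

/-- the difference of two values of the series -/
theorem RR_diff (hz : z ≤ 1) {b δ : ℝ≥0∞} (hb : b ≠ ∞)
    (h1 : RR p z (Vop p z (W p z)) b 0 ≠ ∞) (h2 : RR p z (W p z) (b + δ) 1 ≠ ∞) :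
    RR p z (Vop p z (W p z)) (b + δ) 0 ≤
      RR p z (Vop p z (W p z)) b 0 * (1 + δ * RR p z (W p z) (b + δ) 1) := by
  set V := Vop p z (W p z) with hV
  set S := ∑' i : ℕ, (b + δ) ^ i * RR p z V b (i + 1) with hS
  have h3 : S ≤ RR p z V b 0 * RR p z (W p z) (b + δ) 1 := by
    rw [RR.eq_1 p z (W p z), ← ENNReal.tsum_mul_left]
    refine ENNReal.tsum_le_tsum fun i => ?_
    rw [add_comm 1 i, mul_left_comm]
    exact mul_le_mul' le_rfl (RR_shift hz b _)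
  have h4 : ∑' i : ℕ, (b + δ) ^ i * RR p z V b i = RR p z V b 0 + (b + δ) * S := by
    rw [tsum_eq_zero_add' ENNReal.summable, hS, ← ENNReal.tsum_mul_left, pow_zero, one_mul]
    congr 1
    exact tsum_congr fun i => by ring
  have h5 : ∑' i : ℕ, (b + δ) ^ i * RR p z V b i = RR p z V (b + δ) 0 + b * S := by
    rw [hS, ← ENNReal.tsum_mul_left, RR.eq_1 p z V (b + δ), ← ENNReal.tsum_add]
    refine tsum_congr fun i => ?_
    rw [RR_succ V b i, zero_add]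
    ring
  have h6 : b * S ≠ ∞ := ENNReal.mul_ne_top hb (ne_top_of_le_ne_top (ENNReal.mul_ne_top h1 h2) h3)
  have h7 : RR p z V (b + δ) 0 = RR p z V b 0 + δ * S := by
    rw [← ENNReal.add_left_inj h6, ← h5, h4]
    ring
  rw [h7, mul_add, mul_one, mul_left_comm]
  gcongr

/-- the sum of the minimal lengths of the digits -/
def msf (p : ℕ) (u : ℤ →₀ ℕ) : ℕ := u.sum fun s n => n * ((p - s.natAbs) / 2)

theorem msf_dig (u : ℤ →₀ ℕ) {r : ℕ} (hr : r < p) :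
    msf p (u + dig p r) = msf p u + min r (p - r) := by
  rw [msf, Finsupp.sum_add_index' (by simp) (by intro s a b; ring), msf, dig]
  congr 1
  split_ifs with h
  · simp [h]
  · rw [Finsupp.sum_single_index (by simp)]
    omega

/-- the truncated weight of a profile -/
noncomputable def WM (p : ℕ) (z : ℝ≥0∞) (M : ℕ) (u : ℤ →₀ ℕ) : ℝ≥0∞ :=
  ∑' j : ℤ, if msf p u + prof p u j < M then z ^ prof p u j else 0

/-- the weight lost by the truncation -/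
noncomputable def WL (p : ℕ) (z : ℝ≥0∞) (M : ℕ) (u : ℤ →₀ ℕ) : ℝ≥0∞ :=
  ∑' j : ℤ, if msf p u + prof p u j < M then 0 else z ^ prof p u j

theorem W_split (M : ℕ) (u : ℤ →₀ ℕ) : W p z u = WM p z M u + WL p z M u := by
  rw [WM, WL, ← ENNReal.tsum_add, W]
  exact tsum_congr fun j => by split_ifs <;> simp

theorem WM_mono {z' : ℝ≥0∞} (hz : z ≤ z') (M : ℕ) (u : ℤ →₀ ℕ) : WM p z M u ≤ WM p z' M u :=
  ENNReal.tsum_le_tsum fun j => by
    split_ifs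
    · gcongr
    · exact le_rfl

theorem one_le_WM {M : ℕ} {u : ℤ →₀ ℕ} (h : msf p u < M) : 1 ≤ WM p z M u := by
  have := ENNReal.le_tsum
    (f := fun j : ℤ => if msf p u + prof p u j < M then z ^ prof p u j else 0) 0
  rwa [prof_at_zero, pow_zero, add_zero, if_pos h] at this

theorem loss {κ z' : ℝ≥0∞} (hκ : κ ≤ 1) (hz : z ≤ κ * z') (M : ℕ) : ∀ (k : ℕ) (u : ℤ →₀ ℕ),
    z ^ msf p u * Fk p z (WL p z M) k u ≤ κ ^ M * (z' ^ msf p u * Fk p z' (W p z') k u)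
  | 0, u => by
    simp only [Fk, WL, W, ← ENNReal.tsum_mul_left]
    refine ENNReal.tsum_le_tsum fun j => ?_
    split_ifs with hj
    · simp
    · rw [← pow_add, ← pow_add]
      calc _ ≤ (κ * z') ^ (msf p u + prof p u j) := by gcongr
        _ = κ ^ (msf p u + prof p u j) * z' ^ (msf p u + prof p u j) := mul_pow _ _ _
        _ ≤ _ := mul_le_mul' (pow_le_pow_right_of_le_one' hκ (by omega)) le_rfl
  | k + 1, u => by
    simp only [Fk, Fop, Finset.mul_sum]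
    refine Finset.sum_le_sum fun r hr => ?_
    rw [← mul_assoc, ← pow_add, ← mul_assoc (z' ^ _), ← pow_add,
      ← msf_dig u (Finset.mem_Ioo.1 hr).2]
    exact loss hκ hz M k _

theorem RR_loss {κ z' : ℝ≥0∞} (hκ : κ ≤ 1) (hz : z ≤ κ * z') (M : ℕ) (b : ℝ≥0∞) :
    RR p z (Vop p z (W p z)) b 0 ≤
      RR p z (Vop p z (WM p z M)) b 0 + κ ^ M * RR p z' (Vop p z' (W p z')) b 0 := by
  rw [RR, RR, RR, ← ENNReal.tsum_mul_left, ← ENNReal.tsum_add]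
  refine ENNReal.tsum_le_tsum fun j => ?_
  have h1 : ∀ k, Fk p z (W p z) k 0 ≤ Fk p z (WM p z M) k 0 + κ ^ M * Fk p z' (W p z') k 0 := by
    intro k
    have h2 := loss (p := p) hκ hz M k 0
    simp only [msf, Finsupp.sum_zero_index, pow_zero, one_mul] at h2
    rw [show W p z = fun u => WM p z M u + WL p z M u from funext (W_split M), Fk_add]
    gcongr
  simp only [Fk_Vop, zero_add]
  calc _ ≤ b ^ j * (Fk p z (WM p z M) j 0 + κ ^ M * Fk p z' (W p z') j 0 +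
        (Fk p z (WM p z M) (j + 1) 0 + κ ^ M * Fk p z' (W p z') (j + 1) 0)) :=
        mul_le_mul' le_rfl (add_le_add (h1 _) (h1 _))
    _ = _ := by ring

end Pool.Agent.MP_e0ec03_al.Lim
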