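import Pool.Agent.MP_e0ec03_al.lim.Closed
import Pool.Agent.MP_e0ec03_al.lim.Defs

namespace Pool.Agent.MP_e0ec03_al.Lim

open scoped ENNReal

variable {p : ℕ} {x : ℝ}

/-- the real series of the nonzero digits in the window with top `a` -/
noncomputable def fr (p a : ℕ) (x : ℝ) : ℝ := ∑ r ∈ Finset.Ioo 0 p, x ^ (if r ≤ a then r else p - r)

theorem fr_nonneg (hx : 0 ≤ x) (a : ℕ) : 0 ≤ fr p a x :=
  Finset.sum_nonneg fun _ _ => by positivity

theorem fA_ofReal (hx : 0 ≤ x) (a : ℕ) : fA p (.ofReal x) a = .ofReal (fr p a x) := by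
  rw [fA, fr, ENNReal.ofReal_sum_of_nonneg fun _ _ => by positivity]
  exact Finset.sum_congr rfl fun r _ => (ENNReal.ofReal_pow hx _).symm

theorem geo (x : ℝ) (n : ℕ) : (1 - x) * ∑ r ∈ Finset.Ico 1 (n + 1), x ^ r = x - x ^ (n + 1) := by
  induction n with
  | zero => simp
  | succ n ih =>
    rw [Finset.sum_Ico_succ_top (by omega), mul_add, ih]
    ring

theorem fr_eq {a : ℕ} (ha : a < p) : (1 - x) * fr p a x = 2 * x - x ^ (a + 1) - x ^ (p - a) := by
  have h1 : fr p a x = ∑ r ∈ Finset.Ico 1 (a + 1), x ^ r +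
      ∑ r ∈ Finset.Ico 1 (p - a - 1 + 1), x ^ r := by
    rw [fr, show Finset.Ioo 0 p = Finset.Ico 1 p from rfl,
      ← Finset.sum_Ico_consecutive _ (by omega : 1 ≤ a + 1) (by omega : a + 1 ≤ p)]
    congr 1
    · exact Finset.sum_congr rfl fun r hr => by rw [if_pos (by have := Finset.mem_Ico.1 hr; omega)]
    · refine Finset.sum_nbij' (fun r => p - r) (fun r => p - r) ?_ ?_ ?_ ?_ ?_ <;>
        intro r hr <;> have := Finset.mem_Ico.1 hr
      · exact Finset.mem_Ico.2 (by omega)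
      · exact Finset.mem_Ico.2 (by omega)
      · omega
      · omega
      · rw [if_neg (by omega)]
  rw [h1, mul_add, geo, geo, show p - a - 1 + 1 = p - a by omega]
  ring

theorem den_eq {a : ℕ} (ha : a < p) : den p a x = (1 - x) * (1 - x * fr p a x) := by
  have h := fr_eq (x := x) ha
  rw [den, show p + 1 - a = p - a + 1 by omega]
  linear_combination x * h

theorem den_pos (h0 : 0 ≤ x) (h1 : x < 1 / 2) (a : ℕ) : 0 < den p a x := by
  have h2 : 0 ≤ x ^ (a + 2) := by positivity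
  have h3 : 0 ≤ x ^ (p + 1 - a) := by positivity
  rw [den]
  nlinarith

theorem fr_lt (h0 : 0 ≤ x) (h1 : x < 1 / 2) {a : ℕ} (ha : a < p) : x * fr p a x < 1 := by
  have h2 := den_pos (p := p) h0 h1 a
  rw [den_eq ha] at h2
  have := (mul_pos_iff_of_pos_left (by linarith : 0 < 1 - x)).1 h2
  linarith

theorem inv_ofReal {t : ℝ} (h0 : 0 ≤ t) (h1 : t < 1) :
    (1 - ENNReal.ofReal t)⁻¹ = .ofReal (1 - t)⁻¹ := by
  rw [ENNReal.ofReal_inv_of_pos (by linarith), ENNReal.ofReal_sub _ h0, ENNReal.ofReal_one]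

theorem w_zero (hp : 0 < p) (h0 : 0 ≤ x) (h1 : x < 1 / 2) :
    Fk p (.ofReal x) (W p (.ofReal x)) 0 0 = .ofReal ((1 + x ^ p) / (1 - x ^ p)) := by
  have h2 : x ^ p < 1 := pow_lt_one₀ h0 (by linarith) hp.ne'
  have h3 : 0 ≤ x ^ p := by positivity
  have h4 : 0 ≤ (1 - x ^ p)⁻¹ := inv_nonneg.2 (by linarith)
  rw [w_eq hp, ← ENNReal.ofReal_pow h0, inv_ofReal h3 h2]
  simp only [XX, pow_zero, mul_one, Finset.sum_const_zero, zero_add]
  rw [← ENNReal.ofReal_mul h3, ← ENNReal.ofReal_add h4 (by positivity)]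
  congr 1
  ring

theorem w_one (hp : 0 < p) (h0 : 0 ≤ x) (h1 : x < 1 / 2) :
    Fk p (.ofReal x) (W p (.ofReal x)) 1 0 =
      .ofReal (2 * (x - x ^ p) / ((1 - x) * (1 - x ^ p))) := by
  have h2 : x ^ p < 1 := pow_lt_one₀ h0 (by linarith) hp.ne'
  have h3 : 0 ≤ x ^ p := by positivity
  have h4 : 0 ≤ (1 - x ^ p)⁻¹ := inv_nonneg.2 (by linarith)
  have h5 : ∑ a ∈ Finset.Ico 1 p, ENNReal.ofReal x ^ a = fA p (.ofReal x) (p - 1) :=
    Finset.sum_congr rfl fun r hr => by rw [if_pos (by have := Finset.mem_Ioo.1 hr; omega)]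
  have h6 := fr_nonneg (p := p) h0 0
  have h7 := fr_nonneg (p := p) h0 (p - 1)
  have h8 := fr_eq (x := x) hp
  have h9 := fr_eq (x := x) (show p - 1 < p by omega)
  rw [Nat.sub_add_cancel hp, show p - (p - 1) = 1 by omega] at h9
  rw [w_eq hp, ← ENNReal.ofReal_pow h0, inv_ofReal h3 h2]
  simp only [XX, pow_zero, pow_one, one_mul, mul_zero, add_zero, h5, fA_ofReal h0]
  rw [← ENNReal.ofReal_mul h3, ← ENNReal.ofReal_mul h4, ← ENNReal.ofReal_mul (by positivity),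
    ← ENNReal.ofReal_add h7 (by positivity), ← ENNReal.ofReal_add (by positivity) (by positivity)]
  congr 1
  have h10 : 1 - x ≠ 0 := by linarith
  have h11 : 1 - x ^ p ≠ 0 := by linarith
  simp only [zero_add, pow_one, Nat.sub_zero] at h8 h9
  field_simp
  linear_combination h8 + h9

theorem w_one_le (hp : 0 < p) (h0 : 0 ≤ x) (h1 : x < 1 / 2) :
    Fk p (.ofReal x) (W p (.ofReal x)) 1 0 ≤ .ofReal (2 * x / (1 - x)) := by
  have h2 : x ^ p < 1 := pow_lt_one₀ h0 (by linarith) hp.ne'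
  have h3 : 0 ≤ x ^ p := by positivity
  rw [w_one hp h0 h1]
  refine ENNReal.ofReal_le_ofReal ?_
  rw [div_le_div_iff₀ (mul_pos (by linarith) (by linarith)) (by linarith)]
  have : 0 ≤ (1 - x) * (1 - x) * x ^ p := mul_nonneg (mul_self_nonneg _) h3
  nlinarith

theorem rho_zero (hp : 0 < p) (h0 : 0 ≤ x) (h1 : x < 1 / 2) :
    Fk p (.ofReal x) (Vop p (.ofReal x) (W p (.ofReal x))) 0 0 = .ofReal ((1 + x) / (1 - x)) := by
  have h2 : x ^ p < 1 := pow_lt_one₀ h0 (by linarith) hp.ne'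
  have h3 : x ^ p ≤ x := pow_le_of_le_one h0 (by linarith) hp.ne'
  have h4 : 0 < 1 - x := by linarith
  have h5 : 0 < 1 - x ^ p := by linarith
  have h6 : 0 ≤ x - x ^ p := by linarith
  rw [Fk_Vop, w_zero hp h0 h1, zero_add, w_one hp h0 h1,
    ← ENNReal.ofReal_add (by positivity) (by positivity)]
  congr 1
  field_simp
  ring

theorem RR_le (hp : 0 < p) (h0 : 0 ≤ x) (h1 : x < 1 / 2) :
    RR p (.ofReal x) (Vop p (.ofReal x) (W p (.ofReal x))) (.ofReal x) 0 ≤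
      .ofReal (1 / (1 - 2 * x)) := by
  have h4 : 0 < 1 - x := by linarith
  have hz : ENNReal.ofReal x ≤ 1 := ENNReal.ofReal_le_one.2 (by linarith)
  have h2 : ∀ k, Fk p (.ofReal x) (Vop p (.ofReal x) (W p (.ofReal x))) k 0 ≤
      .ofReal ((1 + x) / (1 - x)) * .ofReal (2 * x / (1 - x)) ^ k := by
    intro k
    induction k with
    | zero => rw [rho_zero hp h0 h1, pow_zero, mul_one]
    | succ k ih =>
      rw [pow_succ, ← mul_assoc]
      exact (rho_add hz k 1).trans (mul_le_mul' ih (w_one_le hp h0 h1))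
  have h3 : x * (2 * x / (1 - x)) < 1 := by
    rw [← mul_div_assoc, div_lt_one h4]
    nlinarith
  calc _ ≤ ∑' k : ℕ, .ofReal ((1 + x) / (1 - x)) *
        (ENNReal.ofReal x * .ofReal (2 * x / (1 - x))) ^ k :=
        ENNReal.tsum_le_tsum fun k => by
          rw [zero_add, mul_pow, mul_left_comm]
          exact mul_le_mul' le_rfl (h2 k)
    _ = _ := by
        rw [ENNReal.tsum_mul_left, ENNReal.tsum_geometric, ← ENNReal.ofReal_mul h0,
          inv_ofReal (by positivity) h3, ← ENNReal.ofReal_mul (by positivity)]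
        congr 1
        have h5 : 1 - 2 * x ≠ 0 := by linarith
        have h6 : 1 + x ≠ 0 := by linarith
        rw [show 1 - x * (2 * x / (1 - x)) = (1 + x) * (1 - 2 * x) / (1 - x) by
          field_simp; ring]
        field_simp

theorem RR_Vop {z : ℝ≥0∞} (φ : (ℤ →₀ ℕ) → ℝ≥0∞) (b : ℝ≥0∞) :
    RR p z (Vop p z φ) b 0 = RR p z φ b 0 + RR p z φ b 1 := by
  rw [RR, RR, RR, ← ENNReal.tsum_add]
  exact tsum_congr fun j => by rw [Fk_Vop, zero_add, add_comm 1 j, mul_add]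

/-- the real value of the series on the diagonal -/
noncomputable def Rr (p : ℕ) (x : ℝ) : ℝ :=
  (RR p (.ofReal x) (Vop p (.ofReal x) (W p (.ofReal x))) (.ofReal x) 0).toReal

/-- the real value of the shifted series on the diagonal -/
noncomputable def Hr (p : ℕ) (x : ℝ) (k : ℕ) : ℝ :=
  (RR p (.ofReal x) (W p (.ofReal x)) (.ofReal x) k).toReal

theorem RR_ne (hp : 0 < p) (h0 : 0 ≤ x) (h1 : x < 1 / 2) :
    RR p (.ofReal x) (Vop p (.ofReal x) (W p (.ofReal x))) (.ofReal x) 0 ≠ ∞ :=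
  ne_top_of_le_ne_top ENNReal.ofReal_ne_top (RR_le hp h0 h1)

theorem H_ne (hp : 0 < p) (h0 : 0 ≤ x) (h1 : x < 1 / 2) :
    RR p (.ofReal x) (W p (.ofReal x)) (.ofReal x) 0 ≠ ∞ ∧
      RR p (.ofReal x) (W p (.ofReal x)) (.ofReal x) 1 ≠ ∞ := by
  have := RR_ne hp h0 h1
  rwa [RR_Vop, ENNReal.add_ne_top] at this

theorem Rr_eq (hp : 0 < p) (h0 : 0 ≤ x) (h1 : x < 1 / 2) :
    Rr p x = Hr p x 0 + Hr p x 1 ∧ Hr p x 0 = (1 + x ^ p) / (1 - x ^ p) + x * Hr p x 1 := by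
  have h2 : x ^ p < 1 := pow_lt_one₀ h0 (by linarith) hp.ne'
  have h5 : 0 < 1 - x ^ p := by linarith
  obtain ⟨h3, h4⟩ := H_ne hp h0 h1
  constructor
  · rw [Rr, RR_Vop, ENNReal.toReal_add h3 h4, Hr, Hr]
  · rw [Hr, RR_succ, w_zero hp h0 h1, ENNReal.toReal_add ENNReal.ofReal_ne_top
      (ENNReal.mul_ne_top ENNReal.ofReal_ne_top h4), ENNReal.toReal_mul,
      ENNReal.toReal_ofReal (by positivity), ENNReal.toReal_ofReal h0, Hr]

theorem Hr_eq (hp : 0 < p) (h0 : 0 ≤ x) (h1 : x < 1 / 2) :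
    (1 - x ^ p) * (1 + x) * Hr p x 0 = eqn p x := by
  have h2 : x ^ p < 1 := pow_lt_one₀ h0 (by linarith) hp.ne'
  have h3 : 0 ≤ x ^ p := by positivity
  have h5 : 0 < 1 - x ^ p := by linarith
  have h6 : 0 < 1 - x := by linarith
  have hf := (H_ne hp h0 h1).1
  have hG : ∀ a < p, (1 - ENNReal.ofReal x * fA p (.ofReal x) a)⁻¹ =
      .ofReal ((1 - x) / den p a x) := fun a ha => by
    rw [fA_ofReal h0, ← ENNReal.ofReal_mul h0,
      inv_ofReal (mul_nonneg h0 (fr_nonneg h0 a)) (fr_lt h0 h1 ha), den_eq ha]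
    congr 1
    field_simp
  have hY : ∀ a ∈ Finset.Ico 1 p, ∑' k, ENNReal.ofReal x ^ k *
      XX (fA p (.ofReal x) a) (fA p (.ofReal x) (a - 1)) (.ofReal x ^ a) k =
        .ofReal ((1 - x) ^ 2 * (x ^ (a + 1) / (den p (a - 1) x * den p a x))) := fun a ha => by
    have ha' := Finset.mem_Ico.1 ha
    have i1 := XX_sum (fA p (.ofReal x) a) (fA p (.ofReal x) (a - 1)) (.ofReal x ^ a) (.ofReal x)
    set Y := ∑' k, ENNReal.ofReal x ^ k *
      XX (fA p (.ofReal x) a) (fA p (.ofReal x) (a - 1)) (.ofReal x ^ a) k with hYd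
    have i2 : Y ≠ ∞ := by
      refine ne_top_of_le_ne_top hf ?_
      rw [H_eq hp]
      exact le_add_left (le_add_right (Finset.single_le_sum (f := fun a => ∑' k,
        ENNReal.ofReal x ^ k * XX (fA p (.ofReal x) a) (fA p (.ofReal x) (a - 1))
          (.ofReal x ^ a) k) (fun _ _ => zero_le) ha))
    have i3 := den_pos (p := p) h0 h1 a
    have i4 := den_pos (p := p) h0 h1 (a - 1)
    have i5 := den_eq (p := p) (x := x) (a := a - 1) (by omega)
    rw [hG a ha'.2, fA_ofReal h0] at i1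
    have i6 := congrArg ENNReal.toReal i1
    rw [ENNReal.toReal_add (by finiteness) (by finiteness)] at i6
    simp only [ENNReal.toReal_mul, ENNReal.toReal_pow, ENNReal.toReal_ofReal h0,
      ENNReal.toReal_ofReal (fr_nonneg h0 _), ENNReal.toReal_ofReal (div_pos h6 i3).le] at i6
    rw [← ENNReal.ofReal_toReal i2]
    congr 1
    field_simp at i6 ⊢
    linear_combination (1 - x) * i6 + Y.toReal * den p a x * i5
  have e : den p (p - 1) x = den p 0 x := by
    rw [den, den, show p - 1 + 2 = p + 1 - 0 by omega, show p + 1 - (p - 1) = 0 + 2 by omega]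
    ring
  have i0 := den_pos (p := p) h0 h1 0
  have i7 : ∀ a ∈ Finset.Ico 1 p,
      0 ≤ (1 - x) ^ 2 * (x ^ (a + 1) / (den p (a - 1) x * den p a x)) := fun a _ => by
    have i3 := den_pos (p := p) h0 h1 a
    have i4 := den_pos (p := p) h0 h1 (a - 1)
    positivity
  rw [Hr, H_eq hp, Finset.sum_congr rfl hY, hG 0 hp, hG (p - 1) (by omega), e,
    ← ENNReal.ofReal_pow h0, inv_ofReal h3 h2, ← ENNReal.ofReal_sum_of_nonneg i7,
    ← ENNReal.ofReal_mul h3, ← ENNReal.ofReal_mul (by positivity),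
    ← ENNReal.ofReal_mul (by positivity),
    ← ENNReal.ofReal_add (Finset.sum_nonneg i7) (by positivity),
    ← ENNReal.ofReal_add (by positivity) (add_nonneg (Finset.sum_nonneg i7) (by positivity)),
    ENNReal.toReal_ofReal (add_nonneg (by positivity)
      (add_nonneg (Finset.sum_nonneg i7) (by positivity))), ← Finset.mul_sum, eqn]
  field_simp
  ring

theorem eqn_eq (hp : 0 < p) (h0 : 0 ≤ x) (h1 : x < 1 / 2) :
    eqn p x - 2 = (1 - x ^ p) * (x * Rr p x - 1) := by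
  have h2 : x ^ p < 1 := pow_lt_one₀ h0 (by linarith) hp.ne'
  have h5 : 1 - x ^ p ≠ 0 := by linarith
  obtain ⟨h3, h4⟩ := Rr_eq hp h0 h1
  have h6 : (1 - x ^ p) * ((1 + x ^ p) / (1 - x ^ p)) = 1 + x ^ p := by field_simp
  rw [← Hr_eq hp h0 h1, h3]
  linear_combination (1 - x ^ p) * h4 + h6

theorem Rr_mono (hp : 0 < p) {y : ℝ} (hxy : x ≤ y) (h0 : 0 ≤ y) (h1 : y < 1 / 2) :
    Rr p x ≤ Rr p y := by
  have h := ENNReal.ofReal_le_ofReal hxy
  exact ENNReal.toReal_mono (RR_ne hp h0 h1) (RR_mono h h (Vop_mono h (W_mono h)) 0)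

theorem Rr_le (hp : 0 < p) (h0 : 0 ≤ x) (h1 : x < 1 / 2) : Rr p x ≤ 1 / (1 - 2 * x) :=
  ENNReal.toReal_le_of_le_ofReal (one_div_nonneg.2 (by linarith)) (RR_le hp h0 h1)

theorem le_Rr (hp : 0 < p) (h0 : 0 ≤ x) (h1 : x < 1 / 2) : (1 + x) / (1 - x) ≤ Rr p x := by
  rw [Rr, ← ENNReal.ofReal_le_iff_le_toReal (RR_ne hp h0 h1), RR_succ, rho_zero hp h0 h1]
  exact le_self_add

/-- the root of the equation -/
theorem root (hp : 0 < p) : ∃ ζ : ℝ, 1 / 4 < ζ ∧ ζ < 21 / 50 ∧ ζ * Rr p ζ = 1 ∧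
    (∀ x, 0 < x → x < 1 / 2 → (eqn p x = 2 ↔ x = ζ)) ∧ ∀ x, 0 < x → x < ζ → x * Rr p x < 1 := by
  have hy : ∀ x : ℝ, 0 ≤ x → x < 1 / 2 → 0 < 1 - x ^ p := fun x h0 h1 =>
    sub_pos.2 (pow_lt_one₀ h0 (by linarith) hp.ne')
  have hc : ContinuousOn (eqn p) (Set.Icc (1 / 4) (21 / 50)) := by
    have hd : ∀ a, Continuous (den p a) := fun a => by unfold den; fun_prop
    have hn : ∀ a, ∀ x ∈ Set.Icc (1 / 4 : ℝ) (21 / 50), den p a x ≠ 0 := fun a x hx =>
      (den_pos (by linarith [hx.1]) (by linarith [hx.2]) a).ne'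
    refine ContinuousOn.mul (by fun_prop) (ContinuousOn.add
      (ContinuousOn.div (by fun_prop) (hd 0).continuousOn (hn 0))
      (ContinuousOn.mul (by fun_prop) (continuousOn_finsetSum _ fun a _ => ?_)))
    exact ContinuousOn.div (by fun_prop) ((hd _).mul (hd _)).continuousOn
      fun x hx => mul_ne_zero (hn _ x hx) (hn _ x hx)
  have h1 : eqn p (1 / 4) < 2 := by
    have i1 := eqn_eq (x := 1 / 4) hp (by norm_num) (by norm_num)
    have i2 := Rr_le (x := 1 / 4) hp (by norm_num) (by norm_num)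
    have i3 := hy (1 / 4) (by norm_num) (by norm_num)
    norm_num at i2
    nlinarith
  have h2 : 2 < eqn p (21 / 50) := by
    have i1 := eqn_eq (x := 21 / 50) hp (by norm_num) (by norm_num)
    have i2 := le_Rr (x := 21 / 50) hp (by norm_num) (by norm_num)
    have i3 := hy (21 / 50) (by norm_num) (by norm_num)
    norm_num at i2
    nlinarith
  obtain ⟨ζ, h3, h4⟩ := intermediate_value_Ioo (by norm_num) hc ⟨h1, h2⟩
  have h5 : ∀ x : ℝ, 0 ≤ x → x < 1 / 2 → (eqn p x = 2 ↔ x * Rr p x = 1) := fun x i0 i1 => by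
    rw [← sub_eq_zero, eqn_eq hp i0 i1, mul_eq_zero, or_iff_right (hy x i0 i1).ne', sub_eq_zero]
  have h6 : ∀ x y : ℝ, 0 < x → x < y → y < 1 / 2 → x * Rr p x < y * Rr p y := by
    intro x y i0 i1 i2
    have i3 := Rr_mono hp i1.le (by linarith) i2
    have i4 := le_Rr (x := y) hp (by linarith) i2
    have i5 : 0 < (1 + y) / (1 - y) := div_pos (by linarith) (by linarith)
    nlinarith
  have h7 : ζ < 1 / 2 := by linarith [h3.2]
  have h8 : 0 < ζ := by linarith [h3.1]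
  have h9 := (h5 ζ h8.le h7).1 h4
  refine ⟨ζ, h3.1, h3.2, h9, fun x i0 i1 => ⟨fun h => ?_, fun h => h ▸ h4⟩,
    fun x i0 i1 => h9 ▸ h6 x ζ i0 i1 h7⟩
  rw [h5 x i0.le i1] at h
  rcases lt_trichotomy x ζ with i2 | i2 | i2
  · linarith [h6 x ζ i0 i2 h7]
  · exact i2
  · linarith [h6 ζ x h8 i2 i1]

end Pool.Agent.MP_e0ec03_al.Lim
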