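import Mathlib.Data.ZMod.ValMinAbs
import Pool.Agent.MP_e0ec03_al.lim.Cores

namespace Pool.Agent.MP_e0ec03_al.Lim

open Classical Core

variable {p q : ℕ}

/-- the profile of a list of digits -/
noncomputable def Pl : List (ZMod p) → ℤ → ℕ
  | [] => psi p 0
  | r :: l => conv (Pl l) (psi p r.val)

/-- the least cost of labels with prescribed digits and last label `k` -/
noncomputable def Sl (l : List (ZMod p)) (k : ℤ) : ℕ := conv (Pl l) (psi p k) 0

/-- the slopes of a list of digits -/
noncomputable def tyl : List (ZMod p) → (ℤ →₀ ℕ)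
  | [] => 0
  | r :: l => tyl l + dig p r.val

/-- the sum of a list of digits -/
def sig : List (ZMod p) → ℤ
  | [] => 0
  | r :: l => sig l + r.val

theorem Sl_shift (l : List (ZMod p)) (k i : ℤ) : Sl l (k + p * i) = conv (Pl l) (psi p k) i := by
  refine le_antisymm ?_ ?_
  · obtain ⟨a, b, h1, h2⟩ := conv_ex (Pl l) (psi p k) i
    have := conv_le (Pl l) (psi p (k + p * i)) 0 a (-a) (by ring)
    rw [h2, Sl]
    refine this.trans (le_of_eq ?_)
    rw [psi, psi, ← h1]
    congr 2
    ring
  · obtain ⟨a, b, h1, h2⟩ := conv_ex (Pl l) (psi p (k + p * i)) 0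
    have := conv_le (Pl l) (psi p k) i a (i + b) (by omega)
    rw [Sl, h2]
    refine this.trans (le_of_eq ?_)
    rw [psi, psi]
    congr 2
    ring

theorem Sl_nil (k : ℤ) : Sl ([] : List (ZMod p)) k = k.natAbs := by
  refine le_antisymm ?_ ?_
  · simpa [Sl, Pl, psi] using conv_le (psi p 0) (psi p k) 0 0 0 rfl
  · obtain ⟨a, b, h1, h2⟩ := conv_ex (psi p 0) (psi p k) 0
    rw [Sl, Pl, h2, psi, psi, show b = -a by omega, mul_neg]
    omega

theorem Sl_cons (r : ZMod p) (l : List (ZMod p)) (k : ℤ) :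
    ∃ i : ℤ, Sl (r :: l) k = Sl l (r.val + p * i) + (k - p * i).natAbs := by
  obtain ⟨a, b, h1, h2⟩ := conv_ex (Pl (r :: l)) (psi p k) 0
  refine ⟨a, ?_⟩
  rw [Sl, h2, Sl_shift, Pl, psi, show b = -a by omega, mul_neg, sub_eq_add_neg]

/-- an optimal carry -/
noncomputable def opt (r : ZMod p) (l : List (ZMod p)) (k : ℤ) : ℤ := (Sl_cons r l k).choose

theorem Sl_opt (r : ZMod p) (l : List (ZMod p)) (k : ℤ) :
    Sl (r :: l) k = Sl l (r.val + p * opt r l k) + (k - p * opt r l k).natAbs :=
  (Sl_cons r l k).choose_spec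

theorem le_Sl : ∀ (l : List (ZMod p)) (k : ℤ), (sig l + k).natAbs ≤ Sl l k
  | [], k => by simp [Sl_nil, sig]
  | r :: l, k => by
    have := le_Sl l (r.val + p * opt r l k)
    rw [Sl_opt, sig]
    omega

theorem Pl_rp [NeZero p] : ∀ l : List (ZMod p), ∃ s, Rp p (Pl l) (msf p (tyl l)) s (tyl l)
  | [] => ⟨0, rp_zero⟩
  | r :: l => by
    obtain ⟨s, h⟩ := Pl_rp l
    exact ⟨_, by rw [tyl, msf_dig _ (ZMod.val_lt r)]; exact h.conv (rp_dig (ZMod.val_lt r))⟩

theorem Sl_sec {l : List (ZMod p)} {s : ℤ} (h : Rp p (Pl l) (msf p (tyl l)) s (tyl l)) {r : ℕ}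
    (hr : r < p) (e : ℤ) : Sl l (r + p * (s + dsh p r + e)) =
      msf p (tyl l + dig p r) + prof p (tyl l + dig p r) e := by
  rw [Sl_shift, (h.conv (rp_dig hr)) e, msf_dig _ hr]

/-- the digits along the spine of a core -/
def sp : Core p q → List (ZMod p)
  | .empty => []
  | .up _ _ => []
  | .node x r _ _ => r :: sp x

/-- the last label of a component whose total is the balanced representative of `d` -/
def lab (y : Core p q) (d : ZMod q) : ℤ := d.valMinAbs - sig (sp y)

/-- the element attached to a core and a last label -/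
noncomputable def el {G : Type} [Group G] (a t : G) : Core p q → ℤ → G
  | .empty, k => a ^ k
  | .up y d, k => el a t y (lab y d) * t * a ^ k
  | .node x r y d, k => el a t x (r.val + p * opt r (sp x) k) * t⁻¹ * el a t y (lab y d) * t *
      a ^ (k - p * opt r (sp x) k)

/-- the cost outside the spine -/
noncomputable def base : Core p q → ℕ
  | .empty => 0
  | .up y d => 1 + (base y + Sl (sp y) (lab y d))
  | .node x _ y d => 2 + (base x + (base y + Sl (sp y) (lab y d)))

theorem len_el {G : Type} [Group G] (a t : G) :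
    ∀ (c : Core p q) (k : ℤ), Len a t (el a t c k) (base c + Sl (sp c) k)
  | .empty, k => by simpa [el, base, sp, Sl_nil] using Len.zpow k
  | .up y d, k => by
    rw [el, base, sp, Sl_nil]
    exact (((len_el a t y _).mul Len.gt).mul (Len.zpow k)).mono (by omega)
  | .node x r y d, k => by
    rw [el, base, sp, Sl_opt]
    exact (((((len_el a t x _).mul Len.gti).mul (len_el a t y _)).mul Len.gt).mul
      (Len.zpow _)).mono (by omega)

theorem map_el {G H : Type} [Group G] [Group H] (f : G →* H) (a t : G) :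
    ∀ (c : Core p q) (k : ℤ), f (el a t c k) = el (f a) (f t) c k
  | .empty, k => by simp [el]
  | .up y d, k => by simp [el, map_el f a t y]
  | .node x r y d, k => by simp [el, map_el f a t x, map_el f a t y]

/-- the normal form: its core -/
noncomputable def nf : Core p q → ℤ → ℤ → Core p q × ℤ
  | .empty, k, n => (.empty, n + k)
  | .up y d, k, n => (.up (nf y (lab y d) n).1 ((nf y (lab y d) n).2 : ZMod q),
      p * ((nf y (lab y d) n).2 / q) + k)
  | .node x r y d, k, n =>
    (.node (nf x (r.val + p * opt r (sp x) k) n).1 ((nf x (r.val + p * opt r (sp x) k) n).2 : ZMod p)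
      (nf y (lab y d) (q * ((nf x (r.val + p * opt r (sp x) k) n).2 / p))).1
      ((nf y (lab y d) (q * ((nf x (r.val + p * opt r (sp x) k) n).2 / p))).2 : ZMod q),
      p * ((nf y (lab y d) (q * ((nf x (r.val + p * opt r (sp x) k) n).2 / p))).2 / q) +
        (k - p * opt r (sp x) k))

theorem nf_empty {c : Core p q} {k n : ℤ} : (nf c k n).1 = .empty ↔ c = .empty := by
  cases c <;> simp [nf]

theorem nf_mod {c : Core p q} (hc : c ≠ .empty) (k n : ℤ) :
    (((nf c k n).2 : ℤ) : ZMod p) = (k : ZMod p) := by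
  cases c with
  | empty => exact (hc rfl).elim
  | up y d => simp [nf]
  | node x r y d => simp [nf]

theorem nf_pure : ∀ (c : Core p q) (k n : ℤ), Core.pure c → Core.pure (nf c k n).1
  | .empty, _, _, _ => trivial
  | .up _ _, _, _, h => h.elim
  | .node x _ _ _, _, n, h => nf_pure x _ n h

variable [NeZero p] [NeZero q]

omit [NeZero q] in
theorem nf_valid : ∀ (c : Core p q) (k n : ℤ), valid c → valid (nf c k n).1
  | .empty, _, _, _ => trivial
  | .up y _, _, n, h => nf_valid y _ n h
  | .node x r y d, k, n, h => by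
    refine ⟨nf_valid x _ n h.1, nf_valid y _ _ h.2.1, nf_pure y _ _ h.2.2.1, fun h1 => ?_, ?_⟩
    · have h2 := nf_empty.1 h1.1
      subst h2
      exact h.2.2.2.1 ⟨rfl, by simpa [nf, lab, sp, sig] using h1.2⟩
    · by_cases h1 : x = .empty
      · exact Or.inl (nf_empty.2 h1)
      · right
        rw [nf_mod h1, val_cast]
        exact h.2.2.2.2.resolve_left h1

theorem act_el : ∀ (c : Core p q) (k n : ℤ) (l : List (ZMod p ⊕ ZMod q)), valid c → ¬ (pp l).2 →
    (Core.pure c ∨ l = []) →
    (el (permA p q) (permT p q) c k)⁻¹ (l, n) = (code (nf c k n).1 ++ l, (nf c k n).2)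
  | .empty, k, n, l, _, _, _ => by simp [el, nf, code, permA_zpow_inv]
  | .up y d, k, n, l, hv, hl, h => by
    obtain rfl : l = [] := by simpa [Core.pure] using h
    have ih := act_el y (lab y d) n [] hv hl (Or.inr rfl)
    have h1 : ¬ (pp (code (nf y (lab y d) n).1 ++ [])).1 := by
      by_cases hy : (nf y (lab y d) n).1 = .empty
      · simp [hy, code, pp]
      · exact pp_code_fst _ hy _
    have s1 : (permT p q)⁻¹ (code (nf y (lab y d) n).1 ++ [], (nf y (lab y d) n).2) =
        (Sum.inr ((nf y (lab y d) n).2 : ZMod q) :: (code (nf y (lab y d) n).1 ++ []),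
          p * ((nf y (lab y d) n).2 / q)) := by
      change tau _ = _
      simp only [tau, h1, false_and, if_false]
    simp only [el, mul_inv_rev, Equiv.Perm.mul_apply, ih, s1, permA_zpow_inv, nf, code,
      List.cons_append]
  | .node x r y d, k, n, l, hv, hl, h => by
    have hn := nf_valid _ k n hv
    simp only [nf, valid] at hn
    have ih := act_el x (r.val + p * opt r (sp x) k) n l hv.1 hl h
    set u := nf x (r.val + p * opt r (sp x) k) n with hu
    have ih' := act_el y (lab y d) (q * (u.2 / p)) (Sum.inl (u.2 : ZMod p) :: (code u.1 ++ l))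
      hv.2.1 (by simp [pp]) (Or.inl hv.2.2.1)
    set v := nf y (lab y d) (q * (u.2 / p)) with hv'
    have s1 : permT p q (code u.1 ++ l, u.2) =
        (Sum.inl (u.2 : ZMod p) :: (code u.1 ++ l), q * (u.2 / p)) := by
      change tau' _ = _
      have h1 : ¬ ((pp (code u.1 ++ l)).2 ∧ (p : ℤ) ∣ u.2) := by
        rw [← ZMod.intCast_zmod_eq_zero_iff_dvd]
        rcases hn.2.2.2.2 with hx | hx
        · simp [hx, code, hl]
        · simp [hx]
      simp only [tau', if_neg h1]
    have s2 : (permT p q)⁻¹ (code v.1 ++ Sum.inl (u.2 : ZMod p) :: (code u.1 ++ l), v.2) =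
        (Sum.inr (v.2 : ZMod q) :: (code v.1 ++ Sum.inl (u.2 : ZMod p) :: (code u.1 ++ l)),
          p * (v.2 / q)) := by
      change tau _ = _
      have h1 : ¬ ((pp (code v.1 ++ Sum.inl (u.2 : ZMod p) :: (code u.1 ++ l))).1 ∧
          (q : ℤ) ∣ v.2) := by
        rw [← ZMod.intCast_zmod_eq_zero_iff_dvd]
        by_cases hy : v.1 = .empty
        · have := hn.2.2.2.1
          tauto
        · have := pp_code_fst _ hy (Sum.inl (u.2 : ZMod p) :: (code u.1 ++ l))
          tauto
      simp only [tau, if_neg h1]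
    simp only [el, mul_inv_rev, Equiv.Perm.mul_apply, ih, inv_inv, s1, ih', s2, permA_zpow_inv, nf,
      code, List.cons_append, List.append_assoc, ← hu, ← hv']

theorem div_sub (n : ℕ) [NeZero n] {u v : ℤ} (h : (u : ZMod n) = v) :
    u - v = n * (u / n - v / n) := by
  have h1 := int_digit n u
  have h2 := int_digit n v
  rw [h] at h1
  linear_combination h1 - h2

omit [NeZero p] in
theorem lab_eq {y y' : Core p q} {d d' : ZMod q} {u v j : ℤ} (h : (u : ZMod q) = v)
    (h' : u - v = q * j + (sig (sp y) + lab y d) - (sig (sp y') + lab y' d')) :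
    d = d' ∧ u - v = q * j ∧ u / q - v / q = j := by
  have h1 : d = d' := by
    have := congrArg (Int.cast : ℤ → ZMod q) h'
    simp only [lab, add_sub_cancel, Int.cast_sub, Int.cast_add, Int.cast_mul, Int.cast_natCast,
      ZMod.natCast_self, zero_mul, zero_add, ZMod.coe_valMinAbs, h, sub_self] at this
    exact sub_eq_zero.1 this.symm
  subst h1
  have h2 : u - v = q * j := by rw [h', lab, lab]; ring
  have h3 : (q : ℤ) ≠ 0 := by exact_mod_cast NeZero.ne q
  exact ⟨rfl, h2, mul_left_cancel₀ h3 (by rw [← div_sub q h, h2])⟩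

theorem nf_diff : ∀ (c c' : Core p q) (k k' n n' : ℤ), valid c → (Core.pure c ∨ n = n') →
    (nf c k n).1 = (nf c' k' n').1 →
    (nf c k n).2 - (nf c' k' n').2 = n - n' + (sig (sp c) + k) - (sig (sp c') + k')
  | .empty, .empty, _, _, _, _, _, _, _ => by simp only [nf, sp, sig]; ring
  | .empty, .up _ _, _, _, _, _, _, _, h => by simp [nf] at h
  | .empty, .node _ _ _ _, _, _, _, _, _, _, h => by simp [nf] at h
  | .up _ _, .empty, _, _, _, _, _, _, h => by simp [nf] at h
  | .up _ _, .node _ _ _ _, _, _, _, _, _, _, h => by simp [nf] at h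
  | .node _ _ _ _, .empty, _, _, _, _, _, _, h => by simp [nf] at h
  | .node _ _ _ _, .up _ _, _, _, _, _, _, _, h => by simp [nf] at h
  | .up y d, .up y' d', k, k', n, n', hv, hn, h => by
    obtain rfl : n = n' := by simpa [Core.pure] using hn
    simp only [nf, Core.up.injEq] at h
    have h1 := nf_diff y y' _ _ n n hv (Or.inr rfl) h.1
    have h2 := (lab_eq (y := y) (y' := y') (d := d) (d' := d') (j := 0) h.2
      (by rw [h1]; ring)).2.2
    simp only [nf, sp, sig]
    linear_combination p * h2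
  | .node x r y d, .node x' r' y' d', k, k', n, n', hv, hn, h => by
    simp only [nf, Core.node.injEq] at h
    have h1 := nf_diff x x' _ _ n n' hv.1 hn h.1
    have h2 := nf_diff y y' _ _ _ _ hv.2.1 (Or.inl hv.2.2.1) h.2.2.1
    have h3 := (lab_eq h.2.2.2 (by rw [h2, ← mul_sub])).2.2
    have h4 := div_sub p h.2.1
    simp only [nf, sp, sig]
    linear_combination p * h3 + h1 - h4

theorem nf_sp : ∀ (c c' : Core p q) (k k' n : ℤ), valid c →
    (nf c k n).1 = (nf c' k' n).1 → sp c = sp c'
  | .empty, .empty, _, _, _, _, _ => rfl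
  | .empty, .up _ _, _, _, _, _, _ => rfl
  | .empty, .node _ _ _ _, _, _, _, _, h => by simp [nf] at h
  | .up _ _, .empty, _, _, _, _, _ => rfl
  | .up _ _, .node _ _ _ _, _, _, _, _, h => by simp [nf] at h
  | .node _ _ _ _, .empty, _, _, _, _, h => by simp [nf] at h
  | .node _ _ _ _, .up _ _, _, _, _, _, h => by simp [nf] at h
  | .up _ _, .up _ _, _, _, _, _, _ => rfl
  | .node x r y d, .node x' r' y' d', k, k', n, hv, h => by
    simp only [nf, Core.node.injEq] at h
    have h1 := nf_sp x x' _ _ n hv.1 h.1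
    have h2 := congrArg (Int.cast : ℤ → ZMod p) (nf_diff x x' _ _ n n hv.1 (Or.inr rfl) h.1)
    rw [Int.cast_sub, h.2.1, sub_self, h1, Int.cast_sub, sub_self, zero_add, Int.cast_add,
      Int.cast_add (sig _), val_cast, val_cast] at h2
    rw [sp, sp, h1, add_left_cancel (sub_eq_zero.1 h2.symm)]

theorem nf_inj : ∀ (c c' : Core p q) (k k' n : ℤ), valid c → nf c k n = nf c' k' n → c = c'
  | .empty, .empty, _, _, _, _, _ => rfl
  | .empty, .up _ _, _, _, _, _, h => by simp [nf] at h
  | .empty, .node _ _ _ _, _, _, _, _, h => by simp [nf] at h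
  | .up _ _, .empty, _, _, _, _, h => by simp [nf] at h
  | .up _ _, .node _ _ _ _, _, _, _, _, h => by simp [nf] at h
  | .node _ _ _ _, .empty, _, _, _, _, h => by simp [nf] at h
  | .node _ _ _ _, .up _ _, _, _, _, _, h => by simp [nf] at h
  | .up y d, .up y' d', k, k', n, hv, h => by
    have h0 := congrArg Prod.fst h
    simp only [nf, Core.up.injEq] at h0
    have h1 := nf_diff y y' _ _ n n hv (Or.inr rfl) h0.1
    have h2 := lab_eq (y := y) (y' := y') (d := d) (d' := d') (j := 0) h0.2 (by rw [h1]; ring)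
    rw [nf_inj y y' _ _ n hv (Prod.ext h0.1 (by linarith [h2.2.1])), h2.1]
  | .node x r y d, .node x' r' y' d', k, k', n, hv, h => by
    have h0 := congrArg Prod.fst h
    have e1 := nf_sp _ _ _ _ n hv h0
    have e2 := nf_diff _ _ _ _ n n hv (Or.inr rfl) h0
    rw [h, e1] at e2
    obtain rfl : k = k' := by linarith
    simp only [sp, List.cons.injEq] at e1
    obtain ⟨rfl, e1⟩ := e1
    simp only [nf, Core.node.injEq] at h0
    have h1 := nf_diff x x' _ _ n n hv.1 (Or.inr rfl) h0.1
    have h2 : nf x (r.val + p * opt r (sp x) k) n = nf x' (r.val + p * opt r (sp x') k) n :=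
      Prod.ext h0.1 (by rw [e1] at h1 ⊢; linarith)
    have h3 := nf_diff y y' _ _ _ _ hv.2.1 (Or.inl hv.2.2.1) h0.2.2.1
    rw [h2] at h3 h0
    have h4 := lab_eq (y := y) (y' := y') (d := d) (d' := d') (j := 0) h0.2.2.2
      (by rw [h3]; ring)
    rw [nf_inj x x' _ _ n hv.1 h2,
      nf_inj y y' _ _ _ hv.2.1 (Prod.ext h0.2.2.1 (by linarith [h4.2.1])), h4.1]

theorem el_inj {c c' : Core p q} (hc : valid c) (hc' : valid c') {k k' : ℤ}
    (h : el (gA p q) (gT p q) c k = el (gA p q) (gT p q) c' k') : c = c' := by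
  have hA : rho p q (gA p q) = permA p q := by simp [rho, gA]
  have hT : rho p q (gT p q) = permT p q := by simp [rho, gT]
  have h1 := congrArg (fun g => (rho p q g)⁻¹ ([], 0)) h
  simp only [map_el, hA, hT] at h1
  rw [act_el c k 0 [] hc (by simp [pp]) (Or.inr rfl),
    act_el c' k' 0 [] hc' (by simp [pp]) (Or.inr rfl), Prod.mk.injEq] at h1
  exact nf_inj c c' k k' 0 hc (Prod.ext (code_inj _ _ [] [] (nf_valid c k 0 hc)
    (nf_valid c' k' 0 hc') (by simp) (by simp) (Or.inr rfl) (Or.inr rfl) h1.1).1 h1.2)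

/-- the least length of the word of a core -/
noncomputable def nu (c : Core p q) : ℕ := base c + msf p (tyl (sp c))

theorem nu_inj (n : ℕ) : ∃ f : Core p q → PresentedGroup (rels p q),
    (∀ c ∈ {c : Core p q | valid c ∧ nu c = n}, f c ∈ ball p q n) ∧
      Set.InjOn f {c : Core p q | valid c ∧ nu c = n} := by
  have h : ∀ l : List (ZMod p), ∃ k, Sl l k = msf p (tyl l) := fun l => by
    obtain ⟨s, h⟩ := Pl_rp l
    exact ⟨_, by simpa [dig, prof_at_zero] using Sl_sec h (NeZero.pos p) 0⟩
  choose k hk using h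
  refine ⟨fun c => el (gA p q) (gT p q) c (k (sp c)), fun c hc => ?_,
    fun c hc c' hc' h => el_inj hc.1 hc'.1 h⟩
  exact mem_ball.2 ((len_el _ _ c _).mono (by rw [hk]; exact hc.2.le))

end Pool.Agent.MP_e0ec03_al.Lim
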